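import Mathlib

/-!
# Holomorphic maps whose discs are small near the points of a set: logarithmic approach
-/

set_option autoImplicit false

open Set Filter Metric MeasureTheory Topology

namespace Run7.h819.Inv

/-- The images of the discs in the unit disc are small near the points of `K`. -/
structure Thin (φ : ℂ → ℂ) (K : Set ℂ) (C σ : ℝ) : Prop where
  diff : DifferentiableOn ℂ φ (ball 0 1)
  bd : ∀ z ∈ ball (0 : ℂ) 1, ∀ k ∈ K, φ z ≠ k → ‖deriv φ z‖ * (1 - ‖z‖) ≤ C * ‖φ z - k‖ ^ σ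

variable {φ : ℂ → ℂ} {K : Set ℂ} {C σ : ℝ}

theorem ray_mem {e : ℂ} (he : ‖e‖ = 1) {x : ℝ} (hx0 : 0 ≤ x) (hx1 : x < 1) :
    (x : ℂ) * e ∈ ball (0 : ℂ) 1 ∧ ‖(x : ℂ) * e‖ = x := by
  have h1 : ‖(x : ℂ) * e‖ = x := by
    rw [norm_mul, he, mul_one, Complex.norm_real, Real.norm_of_nonneg hx0]
  exact ⟨by rw [mem_ball_zero_iff, h1]; exact hx1, h1⟩

theorem ray_deriv (hφ : DifferentiableOn ℂ φ (ball 0 1)) {e : ℂ} (he : ‖e‖ = 1) {x : ℝ}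
    (hx0 : 0 ≤ x) (hx1 : x < 1) :
    HasDerivAt (fun y : ℝ => φ ((y : ℂ) * e)) (deriv φ ((x : ℂ) * e) * e) x := by
  obtain ⟨h1, -⟩ := ray_mem he hx0 hx1
  have h2 : HasDerivAt φ (deriv φ ((x : ℂ) * e)) ((x : ℂ) * e) :=
    (hφ.differentiableAt (isOpen_ball.mem_nhds h1)).hasDerivAt
  have h3 : HasDerivAt (fun z : ℂ => z * e) e (x : ℂ) := by
    simpa using (hasDerivAt_id (x : ℂ)).mul_const e
  exact (h2.comp (x : ℂ) h3).comp_ofReal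

/-- The basic monotonicity along a radius. -/
theorem mono_part (h : Thin φ K C σ) (hσ : 1 < σ) {k : ℂ} (hk : k ∈ K) {e : ℂ} (he : ‖e‖ = 1)
    {X : ℝ} (hX1 : X < 1) (hne : ∀ x ∈ Icc (0 : ℝ) X, φ ((x : ℂ) * e) ≠ k) :
    ∀ x ∈ Icc (0 : ℝ) X, (‖φ ((x : ℂ) * e) - k‖ ^ 2) ^ (-((σ - 1) / 2)) ≤
      (‖φ 0 - k‖ ^ 2) ^ (-((σ - 1) / 2)) + (σ - 1) * C * (-Real.log (1 - x)) := by
  set a : ℝ := (σ - 1) / 2 with ha
  have ha0 : 0 < a := by rw [ha]; linarith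
  set w : ℝ → ℝ := fun x => (‖φ ((x : ℂ) * e) - k‖ ^ 2) ^ (-a) + 2 * a * C * Real.log (1 - x)
    with hw
  have hder : ∀ x ∈ Icc (0 : ℝ) X, ∃ D : ℝ, HasDerivAt w D x ∧ D ≤ 0 := by
    intro x hx
    have hx1 : x < 1 := lt_of_le_of_lt hx.2 hX1
    have h1 := (ray_deriv h.diff he hx.1 hx1).sub_const k
    obtain ⟨h2, h2'⟩ := ray_mem he hx.1 hx1
    have h3 := h.bd _ h2 k hk (hne x hx)
    rw [h2'] at h3
    set g : ℝ → ℂ := fun y : ℝ => φ ((y : ℂ) * e) - k with hg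
    set g' : ℂ := deriv φ ((x : ℂ) * e) * e with hg'
    have hgx : g x ≠ 0 := sub_ne_zero.2 (hne x hx)
    have hn0 : 0 < ‖g x‖ := norm_pos_iff.2 hgx
    have hg'n : ‖g'‖ = ‖deriv φ ((x : ℂ) * e)‖ := by rw [hg', norm_mul, he, mul_one]
    have h4 : HasDerivAt (fun y : ℝ => ‖g y‖ ^ 2) (2 * inner ℝ (g x) g') x := h1.norm_sq
    have h5 := h4.rpow_const (p := -a) (Or.inl (by positivity))
    have h6 : HasDerivAt (fun y : ℝ => Real.log (1 - y)) ((-1) / (1 - x)) x := by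
      have := ((hasDerivAt_id x).const_sub 1).log (by simp only [id]; linarith)
      simpa using this
    have h7 := h5.add (h6.const_mul (2 * a * C))
    refine ⟨_, h7, ?_⟩
    have h8 : |inner ℝ (g x) g'| ≤ ‖g x‖ * ‖g'‖ := abs_real_inner_le_norm _ _
    have h9 : -(inner ℝ (g x) g') ≤ ‖g x‖ * ‖g'‖ := (neg_le_abs _).trans h8
    have h10 : (‖g x‖ ^ 2) ^ (-a - 1) = ‖g x‖ ^ (-σ) * (‖g x‖)⁻¹ := by
      rw [← Real.rpow_natCast, ← Real.rpow_mul hn0.le, ← Real.rpow_neg_one, ← Real.rpow_add hn0]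
      congr 1
      rw [ha]
      push_cast
      ring
    have hσp : 0 < ‖g x‖ ^ σ := Real.rpow_pos_of_pos hn0 _
    have h11 : ‖g'‖ * ‖g x‖ ^ (-σ) ≤ C / (1 - x) := by
      rw [Real.rpow_neg hn0.le, ← div_eq_mul_inv, div_le_div_iff₀ hσp (by linarith), hg'n]
      exact h3
    have h12 : 2 * inner ℝ (g x) g' * -a * (‖g x‖ ^ 2) ^ (-a - 1) ≤ 2 * a * (C / (1 - x)) := by
      calc 2 * inner ℝ (g x) g' * -a * (‖g x‖ ^ 2) ^ (-a - 1)
          = 2 * a * (-(inner ℝ (g x) g')) * (‖g x‖ ^ (-σ) * (‖g x‖)⁻¹) := by rw [h10]; ring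
        _ ≤ 2 * a * (‖g x‖ * ‖g'‖) * (‖g x‖ ^ (-σ) * (‖g x‖)⁻¹) := by gcongr
        _ = 2 * a * (‖g'‖ * ‖g x‖ ^ (-σ)) := by field_simp
        _ ≤ _ := by gcongr
    have h13 : 2 * a * C * (-1 / (1 - x)) = -(2 * a * (C / (1 - x))) := by ring
    rw [h13]
    linarith
  have hanti : AntitoneOn w (Icc 0 X) := by
    apply antitoneOn_of_deriv_nonpos (convex_Icc 0 X)
    · intro x hx
      obtain ⟨D, hD, -⟩ := hder x hx
      exact hD.continuousAt.continuousWithinAt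
    · intro x hx
      obtain ⟨D, hD, -⟩ := hder x (interior_subset hx)
      exact hD.differentiableAt.differentiableWithinAt
    · intro x hx
      obtain ⟨D, hD, hD0⟩ := hder x (interior_subset hx)
      rw [hD.deriv]
      exact hD0
  intro x hx
  have h1 := hanti (left_mem_Icc.2 (hx.1.trans hx.2)) hx hx.1
  simp only [hw, Complex.ofReal_zero, zero_mul, sub_zero, Real.log_one, mul_zero, add_zero] at h1
  have h2 : (σ - 1) * C * (-Real.log (1 - x)) = -(2 * a * C * Real.log (1 - x)) := by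
    rw [ha]; ring
  rw [h2]
  linarith

theorem neg_log_nonneg {x : ℝ} (hx0 : 0 ≤ x) (hx1 : x < 1) : 0 ≤ -Real.log (1 - x) := by
  have := Real.log_nonpos (by linarith : 0 ≤ 1 - x) (by linarith)
  linarith

theorem neg_log_mono {x y : ℝ} (hxy : x ≤ y) (hy : y < 1) :
    -Real.log (1 - x) ≤ -Real.log (1 - y) := by
  have := Real.log_le_log (by linarith : 0 < 1 - y) (by linarith : 1 - y ≤ 1 - x)
  linarith

/-- The points of `K` are not attained if the centre is not mapped to them. -/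
theorem ray_ne (h : Thin φ K C σ) (hσ : 1 < σ) (hC : 0 ≤ C) {k : ℂ} (hk : k ∈ K) (h0 : φ 0 ≠ k)
    {e : ℂ} (he : ‖e‖ = 1) {x : ℝ} (hx0 : 0 ≤ x) (hx1 : x < 1) : φ ((x : ℂ) * e) ≠ k := by
  intro hcon
  have hcont : ContinuousOn (fun y : ℝ => φ ((y : ℂ) * e)) (Icc 0 x) := fun y hy =>
    (ray_deriv h.diff he hy.1 (lt_of_le_of_lt hy.2 hx1)).continuousAt.continuousWithinAt
  set S : Set ℝ := Icc 0 x ∩ (fun y : ℝ => φ ((y : ℂ) * e)) ⁻¹' {k} with hS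
  have hScl : IsCompact S :=
    isCompact_Icc.of_isClosed_subset (hcont.preimage_isClosed_of_isClosed isClosed_Icc
      isClosed_singleton) inter_subset_left
  have hSne : S.Nonempty := ⟨x, ⟨hx0, le_rfl⟩, hcon⟩
  obtain ⟨x₂, hx₂⟩ : ∃ x₂, x₂ = sInf S := ⟨_, rfl⟩
  have hmem : x₂ ∈ S := hx₂ ▸ hScl.sInf_mem hSne
  have hmin : ∀ y ∈ S, x₂ ≤ y := fun y hy => hx₂ ▸ csInf_le hScl.bddBelow hy
  have hx₂k : φ ((x₂ : ℂ) * e) = k := hmem.2
  have hx₂0 : 0 < x₂ := by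
    refine lt_of_le_of_ne hmem.1.1 fun h1 => h0 ?_
    rw [← h1, Complex.ofReal_zero, zero_mul] at hx₂k
    exact hx₂k
  have hx₂1 : x₂ < 1 := lt_of_le_of_lt hmem.1.2 hx1
  set a : ℝ := (σ - 1) / 2 with ha
  have ha0 : 0 < a := by rw [ha]; linarith
  set B : ℝ := (‖φ 0 - k‖ ^ 2) ^ (-a) + (σ - 1) * C * (-Real.log (1 - x₂)) with hB
  have hB0 : 0 ≤ B := by
    have h1 := neg_log_nonneg hx₂0.le hx₂1
    have h2 : 0 ≤ σ - 1 := by linarith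
    positivity
  have hb : ∀ y : ℝ, 0 ≤ y → y < x₂ → (‖φ ((y : ℂ) * e) - k‖ ^ 2) ^ (-a) ≤ B := by
    intro y hy0 hy
    have h1 := mono_part h hσ hk he (X := y) (hy.trans hx₂1) (fun t ht h2 => by
      have h3 : t ∈ S := ⟨⟨ht.1, (ht.2.trans hy.le).trans hmem.1.2⟩, h2⟩
      have h4 := hmin t h3
      have h5 := ht.2
      linarith) y ⟨hy0, le_rfl⟩
    refine h1.trans ?_
    rw [hB]
    have h2 := neg_log_mono hy.le hx₂1
    have h3 : 0 ≤ (σ - 1) * C := mul_nonneg (by linarith) hC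
    have h4 := mul_le_mul_of_nonneg_left h2 h3
    linarith
  -- the values tend to `k`
  have hct : ContinuousAt (fun y : ℝ => ‖φ ((y : ℂ) * e) - k‖ ^ 2) x₂ :=
    ((ray_deriv h.diff he hx₂0.le hx₂1).continuousAt.sub continuousAt_const).norm.pow 2
  have hlim : Tendsto (fun y : ℝ => ‖φ ((y : ℂ) * e) - k‖ ^ 2) (𝓝[<] x₂) (𝓝 0) := by
    have h1 : Tendsto (fun y : ℝ => ‖φ ((y : ℂ) * e) - k‖ ^ 2) (𝓝 x₂) (𝓝 0) := by
      have h2 := hct.tendsto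
      rwa [hx₂k, sub_self, norm_zero, zero_pow two_ne_zero] at h2
    exact h1.mono_left nhdsWithin_le_nhds
  have hpos : 0 < (B + 1) ^ (-a⁻¹) := Real.rpow_pos_of_pos (by linarith) _
  have hev : ∀ᶠ y : ℝ in 𝓝[<] x₂, ‖φ ((y : ℂ) * e) - k‖ ^ 2 < (B + 1) ^ (-a⁻¹) :=
    hlim (gt_mem_nhds hpos)
  have hev2 : ∀ᶠ y : ℝ in 𝓝[<] x₂, 0 < y :=
    mem_nhdsWithin_of_mem_nhds (lt_mem_nhds hx₂0)
  have hev3 : ∀ᶠ y : ℝ in 𝓝[<] x₂, y < x₂ := self_mem_nhdsWithin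
  obtain ⟨y, hy1, hy2, hy3⟩ := (hev.and (hev2.and hev3)).exists
  have h1 := hb y hy2.le hy3
  have hyne : φ ((y : ℂ) * e) ≠ k := by
    intro h2
    have h3 := hmin y ⟨⟨hy2.le, hy3.le.trans hmem.1.2⟩, h2⟩
    linarith
  have hN0 : 0 < ‖φ ((y : ℂ) * e) - k‖ ^ 2 := by
    have := norm_pos_iff.2 (sub_ne_zero.2 hyne)
    positivity
  have h2 := Real.rpow_lt_rpow_of_neg hN0 hy1 (by linarith : -a < 0)
  rw [← Real.rpow_mul (by linarith : 0 ≤ B + 1), neg_mul_neg, inv_mul_cancel₀ ha0.ne',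
    Real.rpow_one] at h2
  linarith

theorem sq_rpow {u a : ℝ} (hu : 0 ≤ u) : (u ^ 2) ^ (-(a / 2)) = u ^ (-a) := by
  rw [← Real.rpow_natCast, ← Real.rpow_mul hu]
  congr 1
  push_cast
  ring

/-- **The approach to the points of `K` is at most logarithmic.** -/
theorem log_bound (h : Thin φ K C σ) (hσ : 1 < σ) (hC : 0 ≤ C) {k : ℂ} (hk : k ∈ K) (h0 : φ 0 ≠ k)
    {z : ℂ} (hz : z ∈ ball (0 : ℂ) 1) : φ z ≠ k ∧
      ‖φ z - k‖ ^ (-(σ - 1)) ≤ ‖φ 0 - k‖ ^ (-(σ - 1)) + (σ - 1) * C * (-Real.log (1 - ‖z‖)) := by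
  have hz1 : ‖z‖ < 1 := mem_ball_zero_iff.1 hz
  obtain ⟨e, he, hze⟩ : ∃ e : ℂ, ‖e‖ = 1 ∧ ((‖z‖ : ℝ) : ℂ) * e = z := by
    by_cases hz0 : z = 0
    · exact ⟨1, norm_one, by rw [hz0, norm_zero]; simp⟩
    · have h1 : 0 < ‖z‖ := norm_pos_iff.2 hz0
      refine ⟨z / (‖z‖ : ℝ), ?_, ?_⟩
      · rw [norm_div, Complex.norm_real, Real.norm_of_nonneg h1.le, div_self h1.ne']
      · have h2 : ((‖z‖ : ℝ) : ℂ) ≠ 0 := Complex.ofReal_ne_zero.2 h1.ne'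
        field_simp
  have hne : ∀ x : ℝ, 0 ≤ x → x < 1 → φ ((x : ℂ) * e) ≠ k := fun x hx0 hx1 =>
    ray_ne h hσ hC hk h0 he hx0 hx1
  have h1 := mono_part h hσ hk he (X := ‖z‖) hz1
    (fun x hx => hne x hx.1 (lt_of_le_of_lt hx.2 hz1)) ‖z‖ ⟨norm_nonneg _, le_rfl⟩
  rw [hze, sq_rpow (norm_nonneg _), sq_rpow (norm_nonneg _)] at h1
  refine ⟨?_, h1⟩
  rw [← hze]
  exact hne _ (norm_nonneg _) hz1

end Run7.h819.Inv
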