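import Mathlib
import Pool.Agent.Run7.h819.Inv1

/-!
# Univalent maps whose discs are small near the points of a set do not see this set
-/

set_option autoImplicit false

open Set Filter Metric MeasureTheory Topology
open scoped ENNReal

namespace Run7.h819.Inv

variable {φ : ℂ → ℂ} {K : Set ℂ} {C σ : ℝ}

theorem det_mul_real (a : ℂ) :
    ((ContinuousLinearMap.toSpanSingleton ℂ a).restrictScalars ℝ : ℂ →L[ℝ] ℂ).det = ‖a‖ ^ 2 := by
  rw [ContinuousLinearMap.det, ← LinearMap.det_toMatrix Complex.basisOneI, Matrix.det_fin_two]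
  simp [LinearMap.toMatrix_apply, Complex.basisOneI, Complex.sq_norm, Complex.normSq_apply]

/-- The area of the image. -/
theorem energy (hφ : DifferentiableOn ℂ φ (ball 0 1)) (hi : InjOn φ (ball 0 1)) {S : Set ℂ}
    (hS : ∀ z ∈ ball (0 : ℂ) 1, φ z ∈ S) :
    ∫⁻ z in ball (0 : ℂ) 1, ENNReal.ofReal (‖deriv φ z‖ ^ 2) ≤ volume S := by
  have h3 := lintegral_abs_det_fderiv_eq_addHaar_image (volume : Measure ℂ)
    (measurableSet_ball (x := (0 : ℂ)) (ε := 1)) (f := φ)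
    (f' := fun z => (ContinuousLinearMap.toSpanSingleton ℂ (deriv φ z)).restrictScalars ℝ)
    (fun z hz => (((hφ.differentiableAt
      (isOpen_ball.mem_nhds hz)).hasDerivAt).hasFDerivAt.restrictScalars ℝ).hasFDerivWithinAt) hi
  calc ∫⁻ z in ball (0 : ℂ) 1, ENNReal.ofReal (‖deriv φ z‖ ^ 2)
      = ∫⁻ z in ball (0 : ℂ) 1, ENNReal.ofReal |((ContinuousLinearMap.toSpanSingleton ℂ
          (deriv φ z)).restrictScalars ℝ : ℂ →L[ℝ] ℂ).det| := by
        refine setLIntegral_congr_fun measurableSet_ball fun z _ => ?_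
        rw [det_mul_real, abs_of_nonneg (by positivity)]
    _ = volume (φ '' ball 0 1) := h3
    _ ≤ volume S := measure_mono (by rintro _ ⟨z, hz, rfl⟩; exact hS z hz)

/-- The energy on the end of a radius. -/
noncomputable def GG (φ : ℂ → ℂ) (δ θ : ℝ) : ℝ≥0∞ :=
  ∫⁻ r in Ioo (1 - δ) 1, ENNReal.ofReal (‖deriv φ ((r : ℂ) * Complex.exp (θ * Complex.I))‖ ^ 2)

theorem meas_F (φ : ℂ → ℂ) : Measurable fun z : ℂ => ENNReal.ofReal (‖deriv φ z‖ ^ 2) :=
  ((measurable_deriv φ).norm.pow_const 2).ennreal_ofReal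

theorem meas_FF (φ : ℂ → ℂ) : Measurable fun p : ℝ × ℝ =>
    ENNReal.ofReal (‖deriv φ ((p.1 : ℂ) * Complex.exp (p.2 * Complex.I))‖ ^ 2) := by
  have h : Measurable fun p : ℝ × ℝ => (p.1 : ℂ) * Complex.exp (p.2 * Complex.I) := by
    apply Continuous.measurable
    fun_prop
  exact (meas_F φ).comp h

theorem meas_GG (φ : ℂ → ℂ) (δ : ℝ) : Measurable (GG φ δ) := by
  unfold GG
  exact Measurable.lintegral_prod_left' (μ := volume.restrict (Ioo (1 - δ) 1)) (meas_FF φ)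

theorem symm_eq (p : ℝ × ℝ) :
    Complex.polarCoord.symm p = (p.1 : ℂ) * Complex.exp (p.2 * Complex.I) := by
  rw [Complex.polarCoord_symm_apply, Complex.exp_mul_I, Complex.ofReal_cos, Complex.ofReal_sin]

/-- The integral of the energies. -/
theorem GG_int {δ : ℝ} (hδ : δ ≤ 1 / 2) :
    ∫⁻ θ in Ioo (-Real.pi) Real.pi, GG φ δ θ ≤
      2 * ∫⁻ z in ball (0 : ℂ) 1, ENNReal.ofReal (‖deriv φ z‖ ^ 2) := by
  set F : ℂ → ℝ≥0∞ := fun z => ENNReal.ofReal (‖deriv φ z‖ ^ 2) with hF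
  set s : Set ℝ := Ioo (1 - δ) 1 with hs
  set t : Set ℝ := Ioo (-Real.pi) Real.pi with ht
  have h1 : ∫⁻ θ in t, GG φ δ θ =
      ∫⁻ p in s ×ˢ t, F ((p.1 : ℂ) * Complex.exp (p.2 * Complex.I)) ∂(volume : Measure (ℝ × ℝ)) := by
    have h2 := lintegral_prod_symm' (μ := volume.restrict s) (ν := volume.restrict t) _ (meas_FF φ)
    rw [Measure.prod_restrict] at h2
    exact h2.symm
  rw [h1]
  have hst : MeasurableSet (s ×ˢ t) := measurableSet_Ioo.prod measurableSet_Ioo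
  have hsub : s ×ˢ t ⊆ polarCoord.target := by
    rintro ⟨r, θ⟩ ⟨hr, hθ⟩
    rw [polarCoord_target]
    refine ⟨?_, hθ⟩
    have := hr.1
    simp only [mem_Ioi]
    linarith
  have h3 : ∀ p ∈ s ×ˢ t, F ((p.1 : ℂ) * Complex.exp (p.2 * Complex.I)) ≤
      2 * (ENNReal.ofReal p.1 • (ball (0 : ℂ) 1).indicator F (Complex.polarCoord.symm p)) := by
    rintro ⟨r, θ⟩ ⟨hr, hθ⟩
    have hr1 : 1 / 2 ≤ r := by have := hr.1; linarith
    have hr2 : r < 1 := hr.2
    have h4 : (r : ℂ) * Complex.exp (θ * Complex.I) ∈ ball (0 : ℂ) 1 := by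
      rw [mem_ball_zero_iff, norm_mul, Complex.norm_exp_ofReal_mul_I, mul_one, Complex.norm_real,
        Real.norm_of_nonneg (by linarith)]
      exact hr2
    rw [symm_eq, indicator_of_mem h4, smul_eq_mul, ← mul_assoc]
    have h5 : (1 : ℝ≥0∞) ≤ 2 * ENNReal.ofReal r := by
      rw [show (2 : ℝ≥0∞) = ENNReal.ofReal 2 by norm_num, ← ENNReal.ofReal_mul (by norm_num),
        show (1 : ℝ≥0∞) = ENNReal.ofReal 1 by norm_num]
      exact ENNReal.ofReal_le_ofReal (by linarith)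
    calc F ((r : ℂ) * Complex.exp (θ * Complex.I))
        = 1 * F ((r : ℂ) * Complex.exp (θ * Complex.I)) := (one_mul _).symm
      _ ≤ _ := mul_le_mul_left h5 _
  have hmeas : Measurable fun p : ℝ × ℝ =>
      ENNReal.ofReal p.1 • (ball (0 : ℂ) 1).indicator F (Complex.polarCoord.symm p) := by
    have h5 : Measurable fun p : ℝ × ℝ => Complex.polarCoord.symm p := by
      have : (fun p : ℝ × ℝ => Complex.polarCoord.symm p) =
          fun p : ℝ × ℝ => (p.1 : ℂ) * Complex.exp (p.2 * Complex.I) := funext symm_eq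
      rw [this]
      apply Continuous.measurable
      fun_prop
    exact (measurable_fst.ennreal_ofReal).smul (((meas_F φ).indicator measurableSet_ball).comp h5)
  calc ∫⁻ p in s ×ˢ t, F ((p.1 : ℂ) * Complex.exp (p.2 * Complex.I))
      ≤ ∫⁻ p in s ×ˢ t, 2 * (ENNReal.ofReal p.1 •
          (ball (0 : ℂ) 1).indicator F (Complex.polarCoord.symm p)) := setLIntegral_mono' hst h3
    _ = 2 * ∫⁻ p in s ×ˢ t, ENNReal.ofReal p.1 •
          (ball (0 : ℂ) 1).indicator F (Complex.polarCoord.symm p) :=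
        lintegral_const_mul _ hmeas
    _ ≤ 2 * ∫⁻ p in polarCoord.target, ENNReal.ofReal p.1 •
          (ball (0 : ℂ) 1).indicator F (Complex.polarCoord.symm p) := by
        gcongr
    _ = 2 * ∫⁻ z, (ball (0 : ℂ) 1).indicator F z := by
        rw [Complex.lintegral_comp_polarCoord_symm]
    _ = _ := by rw [lintegral_indicator measurableSet_ball]

/-- The increments along a radius. -/
theorem ray_sq (hφ : DifferentiableOn ℂ φ (ball 0 1)) {e : ℂ} (he : ‖e‖ = 1) {a b M : ℝ}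
    (ha : 0 ≤ a) (hab : a ≤ b) (hb : b < 1) (hM : 0 ≤ M)
    (h : ∫⁻ r in Ioo a 1, ENNReal.ofReal (‖deriv φ ((r : ℂ) * e)‖ ^ 2) ≤ ENNReal.ofReal M) :
    ‖φ ((b : ℂ) * e) - φ ((a : ℂ) * e)‖ ^ 2 ≤ M * (b - a) := by
  rcases hab.eq_or_lt with h0 | hab'
  · rw [h0, sub_self, norm_zero, sub_self]
    norm_num
  have hcd : ContinuousOn (deriv φ) (ball 0 1) :=
    (hφ.deriv isOpen_ball).continuousOn
  have hray : ∀ x ∈ Icc a b, (x : ℂ) * e ∈ ball (0 : ℂ) 1 := fun x hx =>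
    (ray_mem he (ha.trans hx.1) (lt_of_le_of_lt hx.2 hb)).1
  have hcray : ContinuousOn (fun x : ℝ => deriv φ ((x : ℂ) * e)) (Icc a b) :=
    hcd.comp (by fun_prop) hray
  set u : ℝ → ℝ := fun x => ‖deriv φ ((x : ℂ) * e)‖ with hu
  have hcu : ContinuousOn u (Icc a b) := hcray.norm
  have huI : IntervalIntegrable u volume a b := by
    apply ContinuousOn.intervalIntegrable
    rwa [uIcc_of_le hab]
  have hu2I : IntervalIntegrable (fun x => u x ^ 2) volume a b := by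
    apply ContinuousOn.intervalIntegrable
    rw [uIcc_of_le hab]
    exact hcu.pow 2
  -- the square integral
  have hI2 : ∫ x in a..b, u x ^ 2 ≤ M := by
    rw [intervalIntegral.integral_of_le hab]
    have h1 : ENNReal.ofReal (∫ x in Ioc a b, u x ^ 2) = ∫⁻ x in Ioc a b, ENNReal.ofReal (u x ^ 2) :=
      ofReal_integral_eq_lintegral_ofReal hu2I.1 (ae_of_all _ fun x => by positivity)
    have h2 : ∫⁻ x in Ioc a b, ENNReal.ofReal (u x ^ 2) ≤ ENNReal.ofReal M :=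
      (lintegral_mono_set (show Ioc a b ⊆ Ioo a 1 from
        fun x hx => ⟨hx.1, lt_of_le_of_lt hx.2 hb⟩)).trans h
    rw [← h1] at h2
    exact (ENNReal.ofReal_le_ofReal_iff hM).1 h2
  have hint : ∫ x in a..b, deriv φ ((x : ℂ) * e) * e = φ ((b : ℂ) * e) - φ ((a : ℂ) * e) := by
    apply intervalIntegral.integral_eq_sub_of_hasDerivAt
    · intro x hx
      rw [uIcc_of_le hab] at hx
      exact ray_deriv hφ he (ha.trans hx.1) (lt_of_le_of_lt hx.2 hb)
    · apply ContinuousOn.intervalIntegrable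
      rw [uIcc_of_le hab]
      exact hcray.mul continuousOn_const
  have hI1 : ‖φ ((b : ℂ) * e) - φ ((a : ℂ) * e)‖ ≤ ∫ x in a..b, u x := by
    rw [← hint]
    refine (intervalIntegral.norm_integral_le_integral_norm hab).trans (le_of_eq ?_)
    apply intervalIntegral.integral_congr
    intro x _
    simp only [hu, norm_mul, he, mul_one]
  set m : ℝ := ∫ x in a..b, u x with hm
  have hba : 0 < b - a := by linarith
  have hcs : m ^ 2 ≤ (b - a) * ∫ x in a..b, u x ^ 2 := by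
    have h1 : 0 ≤ ∫ x in a..b, (u x - m / (b - a)) ^ 2 :=
      intervalIntegral.integral_nonneg hab fun x _ => by positivity
    have h2 : ∫ x in a..b, (u x - m / (b - a)) ^ 2 =
        (∫ x in a..b, u x ^ 2) - 2 * (m / (b - a)) * m + (m / (b - a)) ^ 2 * (b - a) := by
      have h3 : (fun x => (u x - m / (b - a)) ^ 2) =
          fun x => (u x ^ 2 - 2 * (m / (b - a)) * u x) + (m / (b - a)) ^ 2 := by
        funext x
        ring
      rw [h3, intervalIntegral.integral_add (hu2I.sub (huI.const_mul _)) (by simp),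
        intervalIntegral.integral_sub hu2I (huI.const_mul _), intervalIntegral.integral_const_mul,
        intervalIntegral.integral_const, smul_eq_mul]
      ring
    rw [h2] at h1
    have h4 : (∫ x in a..b, u x ^ 2) - 2 * (m / (b - a)) * m + (m / (b - a)) ^ 2 * (b - a) =
        (∫ x in a..b, u x ^ 2) - m ^ 2 / (b - a) := by
      field_simp
      ring
    rw [h4] at h1
    have h5 : m ^ 2 / (b - a) ≤ ∫ x in a..b, u x ^ 2 := by linarith
    rw [div_le_iff₀ hba] at h5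
    linarith
  calc ‖φ ((b : ℂ) * e) - φ ((a : ℂ) * e)‖ ^ 2 ≤ m ^ 2 := by gcongr
    _ ≤ (b - a) * ∫ x in a..b, u x ^ 2 := hcs
    _ ≤ (b - a) * M := by gcongr
    _ = _ := mul_comm _ _

/-- `p` is the radial limit of `φ` at the angle `θ`. -/
def RadLim (φ : ℂ → ℂ) (θ : ℝ) (p : ℂ) : Prop :=
  Tendsto (fun r : ℝ => φ ((r : ℂ) * Complex.exp (θ * Complex.I))) (𝓝[<] 1) (𝓝 p)

theorem norm_e (θ : ℝ) : ‖Complex.exp (θ * Complex.I)‖ = 1 := Complex.norm_exp_ofReal_mul_I θ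

theorem ev_lt {a : ℝ} (ha : a < 1) : ∀ᶠ r : ℝ in 𝓝[<] 1, a < r ∧ r < 1 := by
  have h1 : ∀ᶠ r : ℝ in 𝓝[<] 1, a < r := mem_nhdsWithin_of_mem_nhds (lt_mem_nhds ha)
  have h2 : ∀ᶠ r : ℝ in 𝓝[<] 1, r < 1 := self_mem_nhdsWithin
  exact h1.and h2

/-- The distance of the radial limit. -/
theorem lim_sq (hφ : DifferentiableOn ℂ φ (ball 0 1)) {θ : ℝ} {p : ℂ} (hp : RadLim φ θ p) {δ : ℝ}
    (hδ1 : δ ≤ 1) {M : ℝ} (hM : 0 ≤ M) (h : GG φ δ θ ≤ ENNReal.ofReal M) {r : ℝ}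
    (hr : 1 - δ ≤ r) (hr1 : r < 1) :
    ‖p - φ ((r : ℂ) * Complex.exp (θ * Complex.I))‖ ^ 2 ≤ M * (1 - r) := by
  have h1 : Tendsto (fun x : ℝ => ‖φ ((x : ℂ) * Complex.exp (θ * Complex.I)) -
      φ ((r : ℂ) * Complex.exp (θ * Complex.I))‖ ^ 2) (𝓝[<] 1)
      (𝓝 (‖p - φ ((r : ℂ) * Complex.exp (θ * Complex.I))‖ ^ 2)) :=
    ((hp.sub_const _).norm).pow 2
  refine le_of_tendsto h1 ?_
  filter_upwards [ev_lt hr1] with x hx
  have h2 := ray_sq hφ (norm_e θ) (a := r) (b := x) (by linarith) hx.1.le hx.2 hM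
    ((lintegral_mono_set (Ioo_subset_Ioo_left hr)).trans h)
  refine h2.trans ?_
  have := hx.2
  gcongr

/-- The radial limit exists if the energy of the radius is finite. -/
theorem exists_lim (hφ : DifferentiableOn ℂ φ (ball 0 1)) {θ : ℝ} (h : GG φ (1 / 2) θ ≠ ⊤) :
    ∃ p, RadLim φ θ p := by
  set M : ℝ := (GG φ (1 / 2) θ).toReal with hM
  have hM0 : 0 ≤ M := ENNReal.toReal_nonneg
  have hGM : GG φ (1 / 2) θ ≤ ENNReal.ofReal M := by rw [hM, ENNReal.ofReal_toReal h]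
  have hC : Cauchy (map (fun r : ℝ => φ ((r : ℂ) * Complex.exp (θ * Complex.I))) (𝓝[<] 1)) := by
    rw [Metric.cauchy_iff]
    refine ⟨inferInstance, fun ε hε => ?_⟩
    set η : ℝ := min (1 / 2) (ε ^ 2 / (M + 1)) with hη
    have hη0 : 0 < η := by positivity
    have hη1 : η ≤ 1 / 2 := min_le_left _ _
    have hη2 : η ≤ ε ^ 2 / (M + 1) := min_le_right _ _
    refine ⟨(fun r : ℝ => φ ((r : ℂ) * Complex.exp (θ * Complex.I))) '' Ioo (1 - η) 1,
      image_mem_map ?_, ?_⟩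
    · exact ev_lt (by linarith)
    · have key : ∀ x y : ℝ, 1 - η < x → x ≤ y → y < 1 →
          ‖φ ((y : ℂ) * Complex.exp (θ * Complex.I)) -
            φ ((x : ℂ) * Complex.exp (θ * Complex.I))‖ < ε := by
        intro x y hx hxy hy
        have h2 := ray_sq hφ (norm_e θ) (a := x) (b := y) (by linarith) hxy hy hM0
          ((lintegral_mono_set (Ioo_subset_Ioo_left (by linarith))).trans hGM)
        have h3 : M * (y - x) < ε ^ 2 := by
          have h4 : y - x < η := by linarith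
          have h5 : M * (y - x) ≤ M * η := by
            have : y - x ≤ η := h4.le
            gcongr
          have h6 : M * η < (M + 1) * η := by nlinarith
          have h7 : (M + 1) * η ≤ ε ^ 2 := by
            rw [le_div_iff₀ (by linarith)] at hη2
            linarith
          linarith
        exact lt_of_pow_lt_pow_left₀ 2 hε.le (lt_of_le_of_lt h2 h3)
      rintro _ ⟨x, hx, rfl⟩ _ ⟨y, hy, rfl⟩
      rcases le_total x y with hxy | hxy
      · rw [dist_comm, dist_eq_norm]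
        exact key x y hx.1 hxy hy.2
      · rw [dist_eq_norm]
        exact key y x hy.1 hxy hx.2
  obtain ⟨p, hp⟩ := cauchy_iff_exists_le_nhds.1 hC
  exact ⟨p, hp⟩

/-- Almost every radius has finite energy. -/
theorem ae_fin (hφ : DifferentiableOn ℂ φ (ball 0 1)) (hi : InjOn φ (ball 0 1)) {S : Set ℂ}
    (hS : ∀ z ∈ ball (0 : ℂ) 1, φ z ∈ S) (hSf : volume S ≠ ⊤) :
    ∀ᵐ θ ∂(volume.restrict (Ioo (-Real.pi) Real.pi)), GG φ (1 / 2) θ ≠ ⊤ := by
  have h1 : ∫⁻ θ in Ioo (-Real.pi) Real.pi, GG φ (1 / 2) θ ≠ ⊤ := by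
    refine ne_top_of_le_ne_top ?_ ((GG_int le_rfl).trans (mul_le_mul_right (energy hφ hi hS) 2))
    exact ENNReal.mul_ne_top (by norm_num) hSf
  filter_upwards [ae_lt_top (meas_GG φ _) h1] with θ hθ using hθ.ne

/-- A radial limit at which the energy is finite does not belong to `K`. -/
theorem not_mem (h : Thin φ K C σ) (hσ : 1 < σ) (hC : 0 ≤ C) (h0 : ∀ k ∈ K, φ 0 ≠ k) {θ : ℝ}
    (hθ : GG φ (1 / 2) θ ≠ ⊤) {p : ℂ} (hp : RadLim φ θ p) : p ∉ K := by
  intro hpK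
  set M : ℝ := (GG φ (1 / 2) θ).toReal with hM
  have hM0 : 0 ≤ M := ENNReal.toReal_nonneg
  have hGM : GG φ (1 / 2) θ ≤ ENNReal.ofReal M := by rw [hM, ENNReal.ofReal_toReal hθ]
  set a : ℝ := (σ - 1) / 2 with ha
  have ha0 : 0 < a := by rw [ha]; linarith
  set B : ℝ := ‖φ 0 - p‖ ^ (-(σ - 1)) with hB
  -- the inequality for small `x = 1 - r`
  have key : ∀ x : ℝ, 0 < x → x ≤ 1 / 2 →
      (M + 1) ^ (-a) ≤ B * x ^ a + (-((σ - 1) * C)) * (Real.log x * x ^ a) := by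
    intro x hx0 hx1
    have hr : (1 - x) < 1 := by linarith
    obtain ⟨hz, hzn⟩ := ray_mem (norm_e θ) (by linarith : 0 ≤ 1 - x) hr
    obtain ⟨hne, h1⟩ := log_bound h hσ hC hpK (h0 p hpK) hz
    rw [hzn] at h1
    have h2 := lim_sq h.diff hp (by norm_num : (1 / 2 : ℝ) ≤ 1) hM0 hGM (r := 1 - x)
      (by linarith) hr
    rw [sub_sub_cancel] at h1 h2
    set v : ℝ := ‖φ (((1 - x : ℝ) : ℂ) * Complex.exp (θ * Complex.I)) - p‖ with hv
    have hv0 : 0 < v := norm_pos_iff.2 (sub_ne_zero.2 hne)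
    have h3 : v ^ 2 ≤ (M + 1) * x := by
      rw [norm_sub_rev] at h2
      refine h2.trans ?_
      gcongr
      linarith
    have h4 : ((M + 1) * x) ^ (-a) ≤ v ^ (-(σ - 1)) := by
      have h5 : v ^ (-(σ - 1)) = (v ^ 2) ^ (-a) := (sq_rpow hv0.le).symm
      rw [h5]
      exact Real.rpow_le_rpow_of_nonpos (by positivity) h3 (by linarith)
    have h6 : ((M + 1) * x) ^ (-a) = (M + 1) ^ (-a) * (x ^ a)⁻¹ := by
      rw [Real.mul_rpow (by linarith) hx0.le, Real.rpow_neg hx0.le]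
    have hxa : 0 < x ^ a := Real.rpow_pos_of_pos hx0 a
    rw [h6] at h4
    have h7 := h4.trans h1
    have h8 := mul_le_mul_of_nonneg_right h7 hxa.le
    rw [mul_assoc, inv_mul_cancel₀ hxa.ne', mul_one] at h8
    calc (M + 1) ^ (-a) ≤ (B + (σ - 1) * C * -Real.log x) * x ^ a := h8
      _ = _ := by ring
  have hlim1 : Tendsto (fun x : ℝ => x ^ a) (𝓝[>] 0) (𝓝 0) := by
    have h1 : Tendsto (fun x : ℝ => x ^ a) (𝓝 0) (𝓝 ((0 : ℝ) ^ a)) :=
      (Real.continuousAt_rpow_const 0 a (Or.inr ha0.le)).tendsto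
    rw [Real.zero_rpow ha0.ne'] at h1
    exact h1.mono_left nhdsWithin_le_nhds
  have hlim2 : Tendsto (fun x : ℝ => Real.log x * x ^ a) (𝓝[>] 0) (𝓝 0) :=
    tendsto_log_mul_rpow_nhdsGT_zero ha0
  have hlim : Tendsto (fun x : ℝ => B * x ^ a + (-((σ - 1) * C)) * (Real.log x * x ^ a))
      (𝓝[>] 0) (𝓝 0) := by
    have := (hlim1.const_mul B).add (hlim2.const_mul (-((σ - 1) * C)))
    simpa using this
  have hpos : 0 < (M + 1) ^ (-a) := Real.rpow_pos_of_pos (by linarith) _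
  have hev : ∀ᶠ x : ℝ in 𝓝[>] 0, B * x ^ a + (-((σ - 1) * C)) * (Real.log x * x ^ a) <
      (M + 1) ^ (-a) := hlim (gt_mem_nhds hpos)
  have hev2 : ∀ᶠ x : ℝ in 𝓝[>] 0, 0 < x := self_mem_nhdsWithin
  have hev3 : ∀ᶠ x : ℝ in 𝓝[>] 0, x < 1 / 2 :=
    mem_nhdsWithin_of_mem_nhds (gt_mem_nhds (by norm_num))
  obtain ⟨x, h1, h2, h3⟩ := (hev.and (hev2.and hev3)).exists
  have := key x h2 h3.le
  linarith

/-- The measure of the angles with radial limits near `K`. -/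
theorem meas_near (h : Thin φ K C σ) (hi : InjOn φ (ball 0 1)) (hσ : 1 < σ) (hC : 0 < C)
    {R : ℝ} (hR : 0 < R) (h0 : ∀ k ∈ K, R ≤ ‖φ 0 - k‖) {S : Set ℂ}
    (hS : ∀ z ∈ ball (0 : ℂ) 1, φ z ∈ S) {A : ℝ} (hA : Real.pi ≤ A)
    (hSA : volume S ≤ ENNReal.ofReal A) {s : ℝ} (hs0 : 0 < s) (hs1 : s ≤ 1) :
    volume {θ : ℝ | θ ∈ Ioo (-Real.pi) Real.pi ∧ ∃ p, RadLim φ θ p ∧ ∃ k ∈ K, ‖p - k‖ < s} ≤
      ENNReal.ofReal (4 * A / s ^ 2 *
        Real.exp (-(((2 * s) ^ (-(σ - 1)) - R ^ (-(σ - 1))) / ((σ - 1) * C)))) := by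
  have hpi := Real.pi_pos
  have hA0 : 0 < A := by linarith
  set L : ℝ := ((2 * s) ^ (-(σ - 1)) - R ^ (-(σ - 1))) / ((σ - 1) * C) with hL
  set δ : ℝ := Real.exp (-L) with hδ
  have hδ0 : 0 < δ := Real.exp_pos _
  have hσC : 0 < (σ - 1) * C := mul_pos (by linarith) hC
  rcases le_or_gt δ (1 / 2) with hδ2 | hδ2
  · -- the set lies in a superlevel set of the energy
    have hsub : {θ : ℝ | θ ∈ Ioo (-Real.pi) Real.pi ∧ ∃ p, RadLim φ θ p ∧ ∃ k ∈ K, ‖p - k‖ < s} ⊆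
        {θ : ℝ | ENNReal.ofReal (s ^ 2 / δ) ≤ GG φ δ θ} ∩ Ioo (-Real.pi) Real.pi := by
      rintro θ ⟨hθ, p, hp, k, hk, hpk⟩
      refine ⟨?_, hθ⟩
      by_contra hcon
      simp only [mem_ofPred_eq, not_le] at hcon
      obtain ⟨hz, hzn⟩ := ray_mem (norm_e θ) (by linarith : 0 ≤ 1 - δ) (by linarith : 1 - δ < 1)
      have hk0 : φ 0 ≠ k := by
        intro h1
        have h2 := h0 k hk
        rw [h1, sub_self, norm_zero] at h2
        linarith
      obtain ⟨hne, h1⟩ := log_bound h hσ hC.le hk hk0 hz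
      rw [hzn, sub_sub_cancel, hδ, Real.log_exp, neg_neg] at h1
      have h2 : (σ - 1) * C * L = (2 * s) ^ (-(σ - 1)) - R ^ (-(σ - 1)) := by
        rw [hL, mul_div_cancel₀ _ hσC.ne']
      have h3 : ‖φ 0 - k‖ ^ (-(σ - 1)) ≤ R ^ (-(σ - 1)) :=
        Real.rpow_le_rpow_of_nonpos hR (h0 k hk) (by linarith)
      rw [← hδ] at h1
      set v : ℝ := ‖φ (((1 - δ : ℝ) : ℂ) * Complex.exp (θ * Complex.I)) - k‖ with hv
      have hv0 : 0 < v := norm_pos_iff.2 (sub_ne_zero.2 hne)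
      have h4 : v ^ (-(σ - 1)) ≤ (2 * s) ^ (-(σ - 1)) := by linarith
      have h5 : 2 * s ≤ v := by
        by_contra h6
        rw [not_le] at h6
        have h7 := Real.rpow_lt_rpow_of_neg hv0 h6 (by linarith : -(σ - 1) < 0)
        linarith
      have h6 : s < ‖p - φ (((1 - δ : ℝ) : ℂ) * Complex.exp (θ * Complex.I))‖ := by
        have h7 : v ≤ ‖φ (((1 - δ : ℝ) : ℂ) * Complex.exp (θ * Complex.I)) - p‖ + ‖p - k‖ := by
          rw [hv]
          exact norm_sub_le_norm_sub_add_norm_sub _ _ _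
        rw [norm_sub_rev] at h7
        linarith
      have h7 := lim_sq h.diff hp (by linarith : δ ≤ 1) (by positivity : 0 ≤ s ^ 2 / δ) hcon.le
        (r := 1 - δ) le_rfl (by linarith)
      rw [sub_sub_cancel, div_mul_cancel₀ _ hδ0.ne'] at h7
      have h8 := pow_lt_pow_left₀ h6 hs0.le (two_ne_zero)
      linarith
    have hmk := mul_meas_ge_le_lintegral₀ (μ := volume.restrict (Ioo (-Real.pi) Real.pi))
      (meas_GG φ δ).aemeasurable (ENNReal.ofReal (s ^ 2 / δ))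
    have h1 : volume.restrict (Ioo (-Real.pi) Real.pi) {θ : ℝ | ENNReal.ofReal (s ^ 2 / δ) ≤
        GG φ δ θ} = volume ({θ : ℝ | ENNReal.ofReal (s ^ 2 / δ) ≤ GG φ δ θ} ∩
          Ioo (-Real.pi) Real.pi) := Measure.restrict_apply' measurableSet_Ioo
    rw [h1] at hmk
    have h2 : ∫⁻ θ in Ioo (-Real.pi) Real.pi, GG φ δ θ ≤ ENNReal.ofReal (2 * A) := by
      refine (GG_int hδ2).trans ?_
      rw [ENNReal.ofReal_mul (by norm_num), ENNReal.ofReal_ofNat]
      gcongr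
      exact (energy h.diff hi hS).trans hSA
    set T := volume ({θ : ℝ | ENNReal.ofReal (s ^ 2 / δ) ≤ GG φ δ θ} ∩ Ioo (-Real.pi) Real.pi)
    have hsd : 0 < s ^ 2 / δ := by positivity
    have h3 : T ≤ ENNReal.ofReal (2 * A) / ENNReal.ofReal (s ^ 2 / δ) := by
      rw [ENNReal.le_div_iff_mul_le (Or.inl (ENNReal.ofReal_pos.2 hsd).ne')
        (Or.inl ENNReal.ofReal_ne_top), mul_comm]
      exact hmk.trans h2
    refine ((measure_mono hsub).trans h3).trans ?_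
    rw [← ENNReal.ofReal_div_of_pos hsd]
    apply ENNReal.ofReal_le_ofReal
    rw [div_div_eq_mul_div]
    rw [div_mul_eq_mul_div]
    gcongr
    norm_num
  · -- the trivial bound
    refine (measure_mono (t := Ioo (-Real.pi) Real.pi) fun θ hθ => hθ.1).trans ?_
    rw [Real.volume_Ioo]
    apply ENNReal.ofReal_le_ofReal
    have h1 : s ^ 2 ≤ 1 := pow_le_one₀ hs0.le hs1
    have h2 : 4 * A ≤ 4 * A / s ^ 2 := by
      rw [le_div_iff₀ (by positivity)]
      nlinarith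
    calc Real.pi - -Real.pi = 2 * Real.pi := by ring
      _ ≤ 2 * A := by linarith
      _ = (4 * A) * (1 / 2) := by ring
      _ ≤ (4 * A / s ^ 2) * δ := by gcongr

/-- From the circle to the line. -/
theorem ae_line {P : ℝ → Prop} (hP : ∀ θ, P (θ + 2 * Real.pi) ↔ P θ)
    (h : ∀ᵐ θ : ℝ ∂(volume.restrict (Ioo (-Real.pi) Real.pi)), P θ) : ∀ᵐ θ : ℝ, P θ := by
  have hpi := Real.pi_pos
  have hP2 : ∀ (k : ℤ) (θ : ℝ), P (θ + k * (2 * Real.pi)) ↔ P θ := by
    have h1 : Function.Periodic P (2 * Real.pi) := fun θ => propext (hP θ)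
    intro k θ
    rw [h1.int_mul k θ]
  have h' : ∀ᵐ θ : ℝ ∂(volume.restrict (Ioc (-Real.pi) Real.pi)), P θ := by
    rwa [← restrict_Ioo_eq_restrict_Ioc]
  have h0 : volume ({θ | ¬ P θ} ∩ Ioc (-Real.pi) Real.pi) = 0 := by
    have := (ae_restrict_iff' measurableSet_Ioc).1 h'
    rw [ae_iff] at this
    convert this using 2
    ext θ
    simp only [mem_inter_iff, mem_ofPred_eq]
    tauto
  rw [ae_iff]
  have hsub : {θ | ¬ P θ} ⊆ ⋃ k : ℤ, (fun θ : ℝ => θ + k * (2 * Real.pi)) ⁻¹'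
      ({θ | ¬ P θ} ∩ Ioc (-Real.pi) Real.pi) := by
    intro θ hθ
    obtain ⟨k, hk, _⟩ := existsUnique_add_zsmul_mem_Ioc (by positivity : 0 < 2 * Real.pi) θ
      (-Real.pi)
    rw [show -Real.pi + 2 * Real.pi = Real.pi by ring] at hk
    refine mem_iUnion.2 ⟨k, ?_, ?_⟩
    · show ¬ P (θ + k * (2 * Real.pi))
      rw [hP2]; exact hθ
    · show θ + k * (2 * Real.pi) ∈ Ioc (-Real.pi) Real.pi
      simpa using hk
  refine measure_mono_null hsub (measure_iUnion_null fun k => ?_)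
  rw [measure_preimage_add_right]
  exact h0

end Run7.h819.Inv
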