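import Mathlib
import Pool.Agent.Y298.CD.Fin
import Pool.Agent.Run7.h819.Inv2

/-!
# Collet-Eckmann parameters are hidden from the interior of the connectedness locus
-/

set_option autoImplicit false

open Set Filter Metric MeasureTheory Topology

namespace Run7.h819.Inv

open Pool.Agent.TH279.MD Pool.Agent.Y298.SH Pool.Agent.Y298.SH.CD
open Pool.Agent.H713R2 Pool.Agent.H712R2 Pool.Agent.H713R2.AR Pool.Agent.H548R3.MB

variable {d : ℕ} {C₁ lam C₂ β σ C : ℝ} {c₀ : ℂ} {K : Set ℂ}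

/-- The estimates near the points of `K`. -/
structure Super (d : ℕ) (C σ : ℝ) (K : Set ℂ) : Prop where
  area : ∀ k ∈ K, ∀ c ∈ N62a1eb23.multibrotSet d, c ≠ k →
    volume (KK d c) ≤ ENNReal.ofReal (C * ‖c - k‖ ^ (2 * σ / d))
  att : ∀ k ∈ K, ∀ c ∈ N62a1eb23.multibrotSet d, c ≠ k →
    ∃ c' : ℂ, ‖c' - c‖ ≤ C * ‖c - k‖ ^ σ ∧ ∃ p : ℕ, 1 ≤ p ∧
      (fun z : ℂ => z ^ d + c')^[p] 0 = 0 ∧
      N62a1eb23.IsAttractingCycle (fun z : ℂ => z ^ d + c') p 0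
  esc : ∀ k ∈ K, ∀ c ∈ N62a1eb23.multibrotSet d, c ≠ k →
    ∃ c' : ℂ, ‖c' - c‖ ≤ C * ‖c - k‖ ^ σ ∧ c' ∉ N62a1eb23.multibrotSet d
  thin : ∀ φ : ℂ → ℂ, DifferentiableOn ℂ φ (ball 0 1) →
    (∀ z ∈ ball (0 : ℂ) 1, φ z ∈ N62a1eb23.multibrotSet d) → Thin φ K C σ

theorem sub_disc {z ζ : ℂ} (hz : z ∈ ball (0 : ℂ) 1) (hζ : ζ ∈ ball (0 : ℂ) 1) :
    z + ((1 - ‖z‖ : ℝ) : ℂ) * ζ ∈ ball (0 : ℂ) 1 := by
  rw [mem_ball_zero_iff] at *
  have h0 : 0 < 1 - ‖z‖ := by linarith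
  calc ‖z + ((1 - ‖z‖ : ℝ) : ℂ) * ζ‖ ≤ ‖z‖ + ‖((1 - ‖z‖ : ℝ) : ℂ) * ζ‖ := norm_add_le _ _
    _ = ‖z‖ + (1 - ‖z‖) * ‖ζ‖ := by rw [norm_mul, Complex.norm_real, Real.norm_of_nonneg h0.le]
    _ < ‖z‖ + (1 - ‖z‖) * 1 := by gcongr
    _ = 1 := by ring

theorem sub_disc_deriv {φ : ℂ → ℂ} (hφ : DifferentiableOn ℂ φ (ball 0 1)) {z : ℂ}
    (hz : z ∈ ball (0 : ℂ) 1) :
    DifferentiableOn ℂ (fun ζ : ℂ => φ (z + ((1 - ‖z‖ : ℝ) : ℂ) * ζ)) (ball 0 1) ∧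
    ‖deriv (fun ζ : ℂ => φ (z + ((1 - ‖z‖ : ℝ) : ℂ) * ζ)) 0‖ = ‖deriv φ z‖ * (1 - ‖z‖) := by
  have h0 : 0 < 1 - ‖z‖ := by rw [mem_ball_zero_iff] at hz; linarith
  constructor
  · exact hφ.comp (by fun_prop) fun ζ hζ => sub_disc hz hζ
  · have h1 : HasDerivAt φ (deriv φ z) (z + ((1 - ‖z‖ : ℝ) : ℂ) * 0) := by
      rw [mul_zero, add_zero]
      exact (hφ.differentiableAt (isOpen_ball.mem_nhds hz)).hasDerivAt
    have h2 : HasDerivAt (fun ζ : ℂ => z + ((1 - ‖z‖ : ℝ) : ℂ) * ζ) ((1 - ‖z‖ : ℝ) : ℂ) 0 := by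
      simpa using ((hasDerivAt_id (0 : ℂ)).const_mul ((1 - ‖z‖ : ℝ) : ℂ)).const_add z
    have h3 := (h1.comp (0 : ℂ) h2).deriv
    have h4 : (φ ∘ fun ζ : ℂ => z + ((1 - ‖z‖ : ℝ) : ℂ) * ζ) =
        fun ζ : ℂ => φ (z + ((1 - ‖z‖ : ℝ) : ℂ) * ζ) := rfl
    rw [h4] at h3
    rw [h3, norm_mul, Complex.norm_real, Real.norm_of_nonneg h0.le]

/-- The estimates under a recurrence condition. -/
theorem super_rec (hd : 2 ≤ d) (C₁ lam : ℝ) (hC₂ : 0 < C₂) (hβ : 0 ≤ β) (hσ0 : 0 ≤ σ)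
    (hσ : σ * (1 + β) < d / ((d : ℝ) - 1)) :
    ∃ C : ℝ, 0 < C ∧ Super d C σ {c | CEp d C₁ lam c ∧ Rec d C₂ β c} := by
  have hdR : (2 : ℝ) ≤ d := by exact_mod_cast hd
  have hd0 : 0 < (d : ℝ) := by linarith
  have hd1 : 0 < (d : ℝ) - 1 := by linarith
  obtain ⟨t, ht⟩ : ∃ t : ℝ, t = σ * (d - 1) / d := ⟨_, rfl⟩
  have ht0 : 0 ≤ t := by rw [ht]; positivity
  have ht1 : t * (1 + β) < 1 := by
    rw [lt_div_iff₀ hd1] at hσ
    rw [ht, div_mul_eq_mul_div, div_lt_one hd0]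
    linarith
  have e1 : (d : ℝ) * t / ((d : ℝ) - 1) = σ := by rw [ht]; field_simp
  have e2 : 2 * t / ((d : ℝ) - 1) = 2 * σ / d := by rw [ht]; field_simp
  obtain ⟨Ca, hCa, Ha⟩ := upper hd C₁ lam hC₂ hβ ht0 ht1
  obtain ⟨Cb, hCb, Hb⟩ := upper_uniform hd C₁ lam hC₂ hβ ht0 ht1
  rw [e1, e2] at Ha
  rw [e1, e2] at Hb
  have hle1 : Ca ≤ max Ca Cb := le_max_left _ _
  have hle2 : Cb ≤ max Ca Cb := le_max_right _ _
  refine ⟨max Ca Cb, lt_max_of_lt_left hCa, ?_, ?_, ?_, ?_⟩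
  · rintro k ⟨h1, h2⟩ c hc hck
    refine (Ha k h1 h2 c hc hck).1.trans (ENNReal.ofReal_le_ofReal ?_)
    gcongr
  · rintro k ⟨h1, h2⟩ c hc hck
    obtain ⟨c', h3, h4⟩ := (Ha k h1 h2 c hc hck).2.1
    exact ⟨c', h3.trans (by gcongr), h4⟩
  · rintro k ⟨h1, h2⟩ c hc hck
    obtain ⟨c', h3, h4⟩ := (Ha k h1 h2 c hc hck).2.2.1
    exact ⟨c', h3.trans (by gcongr), h4⟩
  · intro φ hφ hφM
    refine ⟨hφ, ?_⟩
    rintro z hz k ⟨h1, h2⟩ hzk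
    obtain ⟨g1, g2⟩ := sub_disc_deriv hφ hz
    have h3 := (Hb k h1 h2 (φ z) (hφM z hz) hzk).2 _ g1
      (fun ζ hζ => hφM _ (sub_disc hz hζ)) (by simp only [mul_zero, add_zero])
    rw [g2] at h3
    exact h3.trans (by gcongr)

theorem Super.mono {K' : Set ℂ} (h : Super d C σ K) (hK : K' ⊆ K) : Super d C σ K' where
  area k hk := h.area k (hK hk)
  att k hk := h.att k (hK hk)
  esc k hk := h.esc k (hK hk)
  thin φ h1 h2 := ⟨h1, fun z hz k hk => (h.thin φ h1 h2).bd z hz k (hK hk)⟩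

/-- The estimates for a class of Collet-Eckmann parameters. -/
theorem super_ce (hd : 2 ≤ d) (hC₁ : 1 ≤ C₁) (hlam : 1 < lam) (hσ0 : 0 ≤ σ)
    (hσ : σ * (1 - Real.log lam / (d * Real.log (2 * d))) < 1) :
    ∃ C : ℝ, 0 < C ∧ Super d C σ {c | CEp d C₁ lam c} := by
  have hdR : (2 : ℝ) ≤ d := by exact_mod_cast hd
  have hd0 : 0 < (d : ℝ) := by linarith
  have hd1 : 0 < (d : ℝ) - 1 := by linarith
  have hlog : 0 < Real.log (2 * d) := Real.log_pos (by linarith)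
  by_cases hl : lam ≤ 2 * d
  · have hle : Real.log lam ≤ Real.log (2 * d) := Real.log_le_log (by linarith) hl
    have hq : Real.log lam / Real.log (2 * d) ≤ 1 := by rwa [div_le_one hlog]
    have hβ : 0 ≤ (1 - Real.log lam / Real.log (2 * d)) / ((d : ℝ) - 1) :=
      div_nonneg (by linarith) hd1.le
    have hC₂ : 0 < (d * C₁) ^ (((d : ℝ) - 1)⁻¹) := by positivity
    obtain ⟨C, hC, h⟩ := super_rec (σ := σ) hd C₁ lam hC₂ hβ hσ0 (by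
      rw [lt_div_iff₀ hd1]
      have e : σ * (1 + (1 - Real.log lam / Real.log (2 * d)) / ((d : ℝ) - 1)) * (d - 1) =
          (σ * (1 - Real.log lam / (d * Real.log (2 * d)))) * d := by
        field_simp
        ring
      rw [e]
      nlinarith)
    exact ⟨C, hC, h.mono fun c hc => ⟨hc, hc.recB⟩⟩
  · have hempty : ∀ c : ℂ, ¬ CEp d C₁ lam c := fun c hc => hl hc.lam_le
    refine ⟨1, one_pos, ?_, ?_, ?_, ?_⟩
    · exact fun k hk => absurd hk (hempty k)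
    · exact fun k hk => absurd hk (hempty k)
    · exact fun k hk => absurd hk (hempty k)
    · exact fun φ h1 _ => ⟨h1, fun z _ k hk => absurd hk (hempty k)⟩

/-- The area of the connectedness locus. -/
theorem vol_M (hd : 2 ≤ d) :
    volume (N62a1eb23.multibrotSet d) ≤ ENNReal.ofReal (4 * Real.pi) := by
  have h1 : N62a1eb23.multibrotSet d ⊆ closedBall 0 2 := fun c hc => by
    rw [mem_closedBall_zero_iff]
    exact norm_le_two hd hc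
  refine (measure_mono h1).trans (le_of_eq ?_)
  rw [Complex.volume_closedBall, ← ENNReal.ofReal_pow (by norm_num), ← NNReal.coe_real_pi,
    ENNReal.ofReal_mul (by norm_num), ENNReal.ofReal_coe_nnreal]
  norm_num

/-- The centre of a univalent disc is not in `K`. -/
theorem Super.center_ne (h : Super d C σ K) (hC : 0 ≤ C) (hσ : 1 < σ) {φ : ℂ → ℂ}
    (hφ : DifferentiableOn ℂ φ (ball 0 1)) (hi : InjOn φ (ball 0 1))
    (hφM : ∀ z ∈ ball (0 : ℂ) 1, φ z ∈ N62a1eb23.multibrotSet d) : ∀ k ∈ K, φ 0 ≠ k := by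
  intro k hk h0
  have hz : (1 / 4 : ℂ) ∈ ball (0 : ℂ) 1 := by rw [mem_ball_zero_iff]; norm_num
  have hn : ‖(1 / 4 : ℂ)‖ = 1 / 4 := by norm_num
  have hT := h.thin _ (sub_disc_deriv hφ hz).1 fun ζ hζ => hφM _ (sub_disc hz hζ)
  have hne : φ (1 / 4 + ((1 - ‖(1 / 4 : ℂ)‖ : ℝ) : ℂ) * 0) ≠ k := by
    rw [mul_zero, add_zero, ← h0]
    intro h1
    have h2 := hi hz (mem_ball_self one_pos) h1
    norm_num at h2
  have h1 := (log_bound hT hσ hC hk hne (z := -(1 / 3)) (by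
    rw [mem_ball_zero_iff]; norm_num)).1
  apply h1
  have h2 : (1 / 4 : ℂ) + ((1 - ‖(1 / 4 : ℂ)‖ : ℝ) : ℂ) * (-(1 / 3)) = 0 := by
    rw [hn]
    push_cast
    norm_num
  show φ (1 / 4 + ((1 - ‖(1 / 4 : ℂ)‖ : ℝ) : ℂ) * (-(1 / 3))) = k
  rw [h2]
  exact h0

theorem Super.mono_const {C' : ℝ} (h : Super d C σ K) (hC : C ≤ C') : Super d C' σ K where
  area k hk c hc hck := (h.area k hk c hc hck).trans (ENNReal.ofReal_le_ofReal (by gcongr))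
  att k hk c hc hck := by
    obtain ⟨c', h1, h2⟩ := h.att k hk c hc hck
    exact ⟨c', h1.trans (by gcongr), h2⟩
  esc k hk c hc hck := by
    obtain ⟨c', h1, h2⟩ := h.esc k hk c hc hck
    exact ⟨c', h1.trans (by gcongr), h2⟩
  thin φ h1 h2 := ⟨h1, fun z hz k hk hzk =>
    ((h.thin φ h1 h2).bd z hz k hk hzk).trans (by gcongr)⟩

/-- images of discs under univalent maps are open -/
theorem isOpen_img {φ : ℂ → ℂ} (hφ : DifferentiableOn ℂ φ (ball 0 1)) (hi : InjOn φ (ball 0 1))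
    {ρ : ℝ} (hρ0 : 0 < ρ) (hρ1 : ρ ≤ 1) : IsOpen (φ '' ball 0 ρ) := by
  have hsubρ : ball (0 : ℂ) ρ ⊆ ball 0 1 := ball_subset_ball hρ1
  have han : AnalyticOnNhd ℂ φ (ball 0 ρ) := (hφ.mono hsubρ).analyticOnNhd isOpen_ball
  rcases han.is_constant_or_isOpen (convex_ball (0 : ℂ) ρ).isPreconnected with ⟨w, hw⟩ | h1
  · exfalso
    have h0 : (0 : ℂ) ∈ ball (0 : ℂ) ρ := mem_ball_self hρ0
    have h1 : ((ρ / 2 : ℝ) : ℂ) ∈ ball (0 : ℂ) ρ := by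
      rw [mem_ball_zero_iff, Complex.norm_real, Real.norm_eq_abs, abs_of_pos (by linarith)]
      linarith
    have h2 := hi (hsubρ h0) (hsubρ h1) ((hw 0 h0).trans (hw _ h1).symm)
    have h3 : (ρ / 2 : ℝ) = 0 := by exact_mod_cast h2.symm
    linarith
  · exact h1 _ subset_rfl isOpen_ball

/-- radial limits of a univalent map lie on the boundary of the image -/
theorem limit_frontier {φ : ℂ → ℂ} (hφ : DifferentiableOn ℂ φ (ball 0 1))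
    (hi : InjOn φ (ball 0 1)) {t : ℝ} {c : ℂ} (hc : RadLim φ t c) :
    c ∈ frontier (φ '' ball 0 1) := by
  have hev : ∀ᶠ r : ℝ in 𝓝[<] 1, (r : ℂ) * Complex.exp (t * Complex.I) ∈ ball (0 : ℂ) 1 ∧
      ‖(r : ℂ) * Complex.exp (t * Complex.I)‖ = r := by
    filter_upwards [ev_lt (zero_lt_one' ℝ)] with r hr
    exact ray_mem (norm_e t) hr.1.le hr.2
  refine ⟨mem_closure_of_tendsto hc ?_, ?_⟩
  · filter_upwards [hev] with r hr
    exact mem_image_of_mem _ hr.1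
  · rw [(isOpen_img hφ hi one_pos le_rfl).interior_eq]
    rintro ⟨z, hz, rfl⟩
    have hz1 : ‖z‖ < 1 := mem_ball_zero_iff.1 hz
    set ρ : ℝ := (1 + ‖z‖) / 2 with hρ
    have hρ0 : 0 < ρ := by rw [hρ]; linarith [norm_nonneg z]
    have hzρ : z ∈ ball (0 : ℂ) ρ := by rw [mem_ball_zero_iff, hρ]; linarith
    have hρ1 : ρ < 1 := by rw [hρ]; linarith
    have hsubρ : ball (0 : ℂ) ρ ⊆ ball 0 1 := ball_subset_ball hρ1.le
    have hopen := isOpen_img hφ hi hρ0 hρ1.le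
    have h1 : ∀ᶠ r : ℝ in 𝓝[<] 1, φ ((r : ℂ) * Complex.exp (t * Complex.I)) ∈ φ '' ball 0 ρ :=
      hc.eventually (hopen.mem_nhds (mem_image_of_mem _ hzρ))
    have h2 : ∀ᶠ r : ℝ in 𝓝[<] 1, ρ < r ∧ r < 1 := ev_lt hρ1
    obtain ⟨r, ⟨w, hw, hw2⟩, h4, h5, h6⟩ := (h1.and (h2.and hev)).exists
    have h7 := hi (hsubρ hw) h5 hw2
    rw [← h7] at h6
    rw [mem_ball_zero_iff, h6] at hw
    linarith [h4.1]

end Run7.h819.Inv
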