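import Mathlib
import Pool.Agent.Y298.CA.Typ
import Pool.Agent.Y674.CA.Lya
import Pool.Agent.Run7.h819.Inv3

/-!
# Parameters with a Lyapunov exponent are hidden from the interior of the connectedness locus
-/

set_option autoImplicit false

open Set Filter Metric MeasureTheory Topology

namespace Run7.h819.Inv

open Pool.Agent.TH279.MD Pool.Agent.Y298.SH Pool.Agent.Y298.SH.CD Pool.Agent.Y298.CA
open Pool.Agent.H713R2 Pool.Agent.H712R2 Pool.Agent.H713R2.AR Pool.Agent.H548R3.MB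

variable {d : ℕ}

/-- the recurrence condition of every order -/
theorem rec_of_lya {χ : ℝ} {c₀ : ℂ} (hd : 2 ≤ d) (h : Lyap d χ c₀)
    {b : ℝ} (hb : 0 < b) : ∃ C₁ lam C₂ : ℝ, 0 < C₂ ∧ CEp d C₁ lam c₀ ∧ Rec d C₂ b c₀ := by
  obtain ⟨⟨C₁, lam, hc⟩, hlya⟩ := Pool.Agent.Y674.CA.lya d χ c₀ hd h
  have hχ : 0 < χ := h.1
  set ε : ℝ := min (χ / 2) (b * χ / 2) with hε
  have hε0 : 0 < ε := lt_min (by positivity) (by positivity)
  have hε1 : ε ≤ χ / 2 := min_le_left _ _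
  have hε2 : ε ≤ b * χ / 2 := min_le_right _ _
  obtain ⟨C, hC, H⟩ := hlya ε hε0
  have hC0 : 0 < C := by linarith
  refine ⟨C₁, lam, C * C ^ b, by positivity, hc, fun n => ?_⟩
  obtain ⟨h1, -, h3⟩ := H n
  have hP := hc.Pd_pos n
  have h4 : Real.exp (ε * n) ≤ C ^ b * Pd d c₀ n ^ b := by
    calc Real.exp (ε * n) ≤ Real.exp ((χ - ε) * n * b) := by
          apply Real.exp_le_exp.mpr
          have : ε ≤ (χ - ε) * b := by nlinarith
          calc ε * n ≤ ((χ - ε) * b) * n := by gcongr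
            _ = _ := by ring
      _ = Real.exp ((χ - ε) * n) ^ b := by rw [← Real.exp_mul]
      _ ≤ (C * Pd d c₀ n) ^ b := Real.rpow_le_rpow (Real.exp_pos _).le h1 hb.le
      _ = _ := Real.mul_rpow hC0.le hP.le
  calc 1 ≤ C * Real.exp (ε * n) * ‖zz d c₀ n‖ := h3
    _ ≤ C * (C ^ b * Pd d c₀ n ^ b) * ‖zz d c₀ n‖ := by gcongr
    _ = _ := by ring

/-- The estimates near a parameter with a Lyapunov exponent. -/
theorem super_lyap {χ : ℝ} {c₀ : ℂ} (hd : 2 ≤ d) (h : Lyap d χ c₀) {σ : ℝ} (hσ0 : 0 ≤ σ)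
    (hσ : σ < d / ((d : ℝ) - 1)) : ∃ C : ℝ, 0 < C ∧ Super d C σ {c₀} := by
  have hdR : (2 : ℝ) ≤ d := by exact_mod_cast hd
  have hd1 : 0 < (d : ℝ) - 1 := by linarith
  obtain ⟨b, hb0, hb⟩ : ∃ b : ℝ, 0 < b ∧ σ * (1 + b) < d / ((d : ℝ) - 1) := by
    refine ⟨(d / ((d : ℝ) - 1) - σ) / (2 * (σ + 1)), by
      apply div_pos <;> linarith, ?_⟩
    have h1 : σ * (1 + (d / ((d : ℝ) - 1) - σ) / (2 * (σ + 1))) =
        σ + (d / ((d : ℝ) - 1) - σ) * (σ / (2 * (σ + 1))) := by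
      field_simp
    have h2 : σ / (2 * (σ + 1)) ≤ 1 / 2 := by
      rw [div_le_div_iff₀ (by linarith) (by norm_num)]
      linarith
    rw [h1]
    have h3 : 0 < d / ((d : ℝ) - 1) - σ := by linarith
    nlinarith
  obtain ⟨C₁, lam, C₂, hC₂, h1, h2⟩ := rec_of_lya hd h hb0
  obtain ⟨C, hC, h3⟩ := super_rec hd C₁ lam hC₂ hb0.le hσ0 hb
  exact ⟨C, hC, h3.mono fun c hc => by
    rw [mem_singleton_iff.1 hc]
    exact ⟨h1, h2⟩⟩

end Run7.h819.Inv
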