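import Pool.Agent.Run7.h819.GapSub

/-!
# Truncated gap integrals: scaling for exponents below one, dimension at least two
-/

set_option autoImplicit false

namespace Pool.Agent.Run7.h819.GapSub

open MeasureTheory Set
open scoped ENNReal

variable {m : ℕ} {N : Type} [MetricSpace N]

/-- weight of the gap integral with exponent `p` -/
noncomputable def wp (p t : ℝ) (d : ℝ) : ℝ≥0∞ :=
  if t ≤ d then ENNReal.ofReal ((d - t) ^ p) else 0

/-- weight with exponent one -/
noncomputable def w1 (t : ℝ) (d : ℝ) : ℝ≥0∞ := ENNReal.ofReal (d - t)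

/-- weight with exponent zero -/
noncomputable def w0 (t : ℝ) (d : ℝ) : ℝ≥0∞ := if t ≤ d then 1 else 0

theorem measurable_w1 (t : ℝ) : Measurable (w1 t) := by
  unfold w1
  fun_prop

variable [MeasurableSpace N] [BorelSpace N] [SecondCountableTopology N]

/-- exponent one: `k^m G_1^(k t) ≤ k G_1^t` -/
theorem sub_one {Ω : Set (EuclideanSpace ℝ (Fin m))} (hΩ : MeasurableSet Ω) (hc : Convex ℝ Ω)
    {f : EuclideanSpace ℝ (Fin m) → N} (hf : Measurable f) {k : ℕ} (hk : 0 < k) (t : ℝ) :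
    (k : ℝ≥0∞) ^ m * H Ω f (w1 (k * t)) ≤ k * H Ω f (w1 t) := by
  apply subdivide hΩ hc hf (measurable_w1 _) (measurable_w1 _) hk
  intro a d _ _ hd
  unfold w1
  calc ENNReal.ofReal (d - k * t) ≤ ENNReal.ofReal (∑ i ∈ Finset.range k, (a i - t)) := by
        apply ENNReal.ofReal_le_ofReal
        rw [Finset.sum_sub_distrib, Finset.sum_const, Finset.card_range, nsmul_eq_mul]
        linarith
    _ ≤ ENNReal.ofReal (∑ i ∈ Finset.range k, max (a i - t) 0) := by
        apply ENNReal.ofReal_le_ofReal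
        exact Finset.sum_le_sum (fun i _ => le_max_left _ _)
    _ = ∑ i ∈ Finset.range k, ENNReal.ofReal (max (a i - t) 0) := by
        apply ENNReal.ofReal_sum_of_nonneg
        intro i _
        exact le_max_right _ _
    _ = ∑ i ∈ Finset.range k, ENNReal.ofReal (a i - t) := by
        apply Finset.sum_congr rfl
        intro i _
        rcases le_total (a i - t) 0 with h | h
        · rw [max_eq_right h, ENNReal.ofReal_zero, ENNReal.ofReal_of_nonpos h]
        · rw [max_eq_left h]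

/-- absorption: `G_1^t ≤ 2 t G_0^t` in dimension at least two, for a bounded target -/
theorem one_le_zero (hm : 2 ≤ m) {Ω : Set (EuclideanSpace ℝ (Fin m))} (hΩ : MeasurableSet Ω)
    (hc : Convex ℝ Ω) {f : EuclideanSpace ℝ (Fin m) → N} (hf : Measurable f) {D : ℝ}
    (hD : ∀ x y, dist (f x) (f y) ≤ D) {t : ℝ} (ht : 0 < t) :
    H Ω f (w1 t) ≤ ENNReal.ofReal (2 * t) * H Ω f (w0 t) := by
  by_cases hN : H Ω f (w0 t) = ∞
  · rw [hN, ENNReal.mul_top]
    · exact le_top
    · rw [Ne, ENNReal.ofReal_eq_zero]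
      linarith
  have hfin : H Ω f (w1 t) ≠ ∞ := by
    have h1 : H Ω f (w1 t) ≤ ENNReal.ofReal D * H Ω f (w0 t) := by
      rw [← H_const_mul _ _ _ ENNReal.ofReal_ne_top]
      unfold H
      apply lintegral_mono
      intro x
      apply lintegral_mono
      intro y
      apply mul_le_mul' _ le_rfl
      show ENNReal.ofReal (dist (f y) (f x) - t) ≤
        ENNReal.ofReal D * (if t ≤ dist (f y) (f x) then 1 else 0)
      split_ifs with h
      · rw [mul_one]
        apply ENNReal.ofReal_le_ofReal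
        linarith [hD y x]
      · rw [mul_zero, ENNReal.ofReal_of_nonpos (by linarith [not_le.1 h])]
    exact ne_top_of_le_ne_top (ENNReal.mul_ne_top ENNReal.ofReal_ne_top hN) h1
  -- pointwise splitting
  have hsplit : H Ω f (w1 t) ≤ ENNReal.ofReal t * H Ω f (w0 t) + H Ω f (w1 (2 * t)) := by
    rw [← H_const_mul _ _ _ ENNReal.ofReal_ne_top]
    have hadd : H Ω f (fun d => ENNReal.ofReal t * w0 t d + w1 (2 * t) d) =
        H Ω f (fun d => ENNReal.ofReal t * w0 t d) + H Ω f (w1 (2 * t)) := by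
      unfold H
      have hm1 : Measurable (fun q : EuclideanSpace ℝ (Fin m) × EuclideanSpace ℝ (Fin m) =>
          w1 (2 * t) (dist (f q.2) (f q.1)) * w (q.2 - q.1)) :=
        ((measurable_w1 _).comp ((hf.comp measurable_snd).dist (hf.comp measurable_fst))).mul
          (measurable_w.comp (measurable_snd.sub measurable_fst))
      rw [← lintegral_add_right _ (Measurable.lintegral_prod_right' hm1)]
      apply lintegral_congr
      intro x
      rw [← lintegral_add_right]
      · apply lintegral_congr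
        intro y
        rw [add_mul]
      · exact hm1.comp (measurable_const.prodMk measurable_id)
    rw [← hadd]
    apply H_mono
    intro d _
    unfold w1 w0
    split_ifs with h
    · rw [mul_one, ← sub_add_sub_cancel d (2 * t) t, add_comm]
      refine ENNReal.ofReal_add_le.trans (le_of_eq ?_)
      congr 2
      ring
    · rw [ENNReal.ofReal_of_nonpos (by linarith [not_le.1 h])]
      exact zero_le
  have h2 := sub_one hΩ hc hf (k := 2) (by norm_num) t
  push_cast at h2
  have h3 : (2 : ℝ≥0∞) * H Ω f (w1 (2 * t)) ≤ H Ω f (w1 t) := by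
    have h4 : (2 : ℝ≥0∞) * (2 * H Ω f (w1 (2 * t))) ≤ 2 * H Ω f (w1 t) := by
      refine le_trans ?_ h2
      rw [← mul_assoc]
      apply mul_le_mul' _ le_rfl
      rw [← sq]
      exact pow_le_pow_right₀ (by norm_num) hm
    exact (ENNReal.mul_le_mul_iff_right (by norm_num) (by norm_num)).1 h4
  have h5 : 2 * H Ω f (w1 t) ≤ ENNReal.ofReal (2 * t) * H Ω f (w0 t) + H Ω f (w1 t) := by
    calc 2 * H Ω f (w1 t) ≤ 2 * (ENNReal.ofReal t * H Ω f (w0 t) + H Ω f (w1 (2 * t))) :=
          mul_le_mul' le_rfl hsplit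
      _ = ENNReal.ofReal (2 * t) * H Ω f (w0 t) + 2 * H Ω f (w1 (2 * t)) := by
          rw [mul_add, ← mul_assoc, ENNReal.ofReal_mul (by norm_num)]
          norm_num
      _ ≤ _ := by gcongr
  rw [two_mul] at h5
  exact (ENNReal.add_le_add_iff_right hfin).1 h5

/-- the real constant -/
theorem const_le {p δ ε : ℝ} {k : ℕ} (hp1 : p < 1) (hδ : 0 < δ) (hε : 0 < ε) (hk : 0 < k)
    (hkε : ε ≤ 8 * k * δ) (hpm : p ≤ m) (hp : 0 ≤ p) :
    (2 * k * δ) ^ (p - 1) * k * (4 * δ) * δ ^ (-p) ≤
      k ^ m * (4 * 8 ^ m * (δ / ε) ^ ((m : ℝ) - p)) := by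
  have hk0 : (0 : ℝ) < k := by exact_mod_cast hk
  have e1 : (2 * k * δ) ^ (p - 1) * k * (4 * δ) * δ ^ (-p) = 4 * 2 ^ (p - 1) * (k : ℝ) ^ p := by
    rw [Real.mul_rpow (by positivity) hδ.le, Real.mul_rpow (by norm_num) hk0.le,
      Real.rpow_sub_one hk0.ne', Real.rpow_sub_one hδ.ne', Real.rpow_neg hδ.le]
    have : δ ^ p ≠ 0 := by positivity
    field_simp
  rw [e1]
  have h2 : (2 : ℝ) ^ (p - 1) ≤ 1 := Real.rpow_le_one_of_one_le_of_nonpos (by norm_num) (by linarith)
  have h3 : (k : ℝ) ^ p ≤ k ^ m * (8 ^ m * (δ / ε) ^ ((m : ℝ) - p)) := by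
    have h4 : (k : ℝ)⁻¹ ≤ 8 * (δ / ε) := by
      rw [inv_eq_one_div, mul_div_assoc', div_le_div_iff₀ hk0 hε]
      nlinarith
    have h5 : ((k : ℝ)⁻¹) ^ ((m : ℝ) - p) ≤ (8 * (δ / ε)) ^ ((m : ℝ) - p) :=
      Real.rpow_le_rpow (by positivity) h4 (by linarith)
    have h6 : (8 * (δ / ε)) ^ ((m : ℝ) - p) ≤ 8 ^ m * (δ / ε) ^ ((m : ℝ) - p) := by
      rw [Real.mul_rpow (by norm_num) (by positivity)]
      apply mul_le_mul_of_nonneg_right _ (by positivity)
      rw [← Real.rpow_natCast 8 m]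
      apply Real.rpow_le_rpow_of_exponent_le (by norm_num)
      linarith
    have h7 : (k : ℝ) ^ p = k ^ m * ((k : ℝ)⁻¹) ^ ((m : ℝ) - p) := by
      rw [Real.inv_rpow hk0.le, Real.rpow_sub hk0, Real.rpow_natCast]
      have : (k : ℝ) ^ p ≠ 0 := by positivity
      field_simp
    rw [h7]
    exact mul_le_mul_of_nonneg_left (h5.trans h6) (by positivity)
  have h8 : 4 * (2 : ℝ) ^ (p - 1) * (k : ℝ) ^ p ≤ 4 * 1 * (k : ℝ) ^ p := by
    gcongr
  nlinarith

theorem scale_open (hm : 2 ≤ m) {Ω : Set (EuclideanSpace ℝ (Fin m))} (hΩ : MeasurableSet Ω)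
    (hc : Convex ℝ Ω) {f : EuclideanSpace ℝ (Fin m) → N} (hf : Measurable f) {D : ℝ}
    (hD : ∀ x y, dist (f x) (f y) ≤ D) {p δ ε : ℝ} (hp : 0 ≤ p) (hp1 : p < 1) (hδ : 0 < δ)
    (hδε : δ < ε) :
    H Ω f (wp p ε) ≤ ENNReal.ofReal (4 * 8 ^ m * (δ / ε) ^ ((m : ℝ) - p)) * H Ω f (wp p δ) := by
  have hε : 0 < ε := hδ.trans hδε
  have hmp : p ≤ m := by
    have : (2 : ℝ) ≤ m := by exact_mod_cast hm
    linarith
  rcases lt_or_ge ε (4 * δ) with h4 | h4
  · -- monotonicity
    have h1 : H Ω f (wp p ε) ≤ H Ω f (wp p δ) := by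
      apply H_mono
      intro d _
      unfold wp
      split_ifs with h h'
      · apply ENNReal.ofReal_le_ofReal
        apply Real.rpow_le_rpow (by linarith) (by linarith) hp
      · exact absurd (hδε.le.trans h) h'
      · exact zero_le
      · exact zero_le
    have h2 : (1 : ℝ) ≤ 4 * 8 ^ m * (δ / ε) ^ ((m : ℝ) - p) := by
      have h3 : (1 / 4 : ℝ) ≤ δ / ε := by
        rw [div_le_div_iff₀ (by norm_num) hε]
        linarith
      have h5 : (1 / 4 : ℝ) ^ m ≤ (δ / ε) ^ ((m : ℝ) - p) := by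
        calc (1 / 4 : ℝ) ^ m = (1 / 4 : ℝ) ^ (m : ℝ) := (Real.rpow_natCast _ _).symm
          _ ≤ (1 / 4 : ℝ) ^ ((m : ℝ) - p) :=
            Real.rpow_le_rpow_of_exponent_ge (by norm_num) (by norm_num) (by linarith)
          _ ≤ _ := Real.rpow_le_rpow (by norm_num) h3 (by linarith)
      calc (1 : ℝ) ≤ 4 * (8 ^ m * (1 / 4) ^ m) := by
            rw [← mul_pow]
            have : (1 : ℝ) ≤ (8 * (1 / 4)) ^ m := one_le_pow₀ (by norm_num)
            linarith
        _ ≤ 4 * (8 ^ m * (δ / ε) ^ ((m : ℝ) - p)) := by gcongr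
        _ = _ := by ring
    calc H Ω f (wp p ε) ≤ 1 * H Ω f (wp p δ) := by rw [one_mul]; exact h1
      _ ≤ _ := by
        apply mul_le_mul' _ le_rfl
        rw [← ENNReal.ofReal_one]
        exact ENNReal.ofReal_le_ofReal h2
  · -- the main case
    set k : ℕ := ⌊ε / (4 * δ)⌋₊ with hkdef
    have hx1 : 1 ≤ ε / (4 * δ) := by
      rw [le_div_iff₀ (by positivity)]
      linarith
    have hk1 : 1 ≤ k := by
      rw [hkdef, Nat.one_le_floor_iff]
      exact hx1
    have hk : 0 < k := hk1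
    have hk0 : (0 : ℝ) < k := by exact_mod_cast hk
    have hkle : (k : ℝ) ≤ ε / (4 * δ) := Nat.floor_le (by positivity)
    have hk4 : 4 * k * δ ≤ ε := by
      rw [le_div_iff₀ (by positivity)] at hkle
      linarith
    have hkge : ε ≤ 8 * k * δ := by
      have h1 : ε / (4 * δ) < k + 1 := Nat.lt_floor_add_one _
      have h2 : (1 : ℝ) ≤ k := by exact_mod_cast hk1
      rw [div_lt_iff₀ (by positivity)] at h1
      nlinarith
    have hkδ : 0 < k * δ := by positivity
    -- (a)
    have ha : H Ω f (wp p ε) ≤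
        ENNReal.ofReal ((2 * k * δ) ^ (p - 1)) * H Ω f (w1 (k * (2 * δ))) := by
      rw [← H_const_mul _ _ _ ENNReal.ofReal_ne_top]
      apply H_mono
      intro d _
      unfold wp w1
      split_ifs with h
      · rw [← ENNReal.ofReal_mul (by positivity)]
        apply ENNReal.ofReal_le_ofReal
        have h1 : 2 * k * δ ≤ d - k * (2 * δ) := by linarith
        have h2 : 0 < d - k * (2 * δ) := by linarith
        calc (d - ε) ^ p ≤ (d - k * (2 * δ)) ^ p :=
              Real.rpow_le_rpow (by linarith) (by linarith) hp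
          _ = (d - k * (2 * δ)) ^ (p - 1) * (d - k * (2 * δ)) := by
              rw [Real.rpow_sub_one h2.ne', div_mul_cancel₀ _ h2.ne']
          _ ≤ _ := by
              apply mul_le_mul_of_nonneg_right _ h2.le
              exact Real.rpow_le_rpow_of_nonpos (by positivity) h1 (by linarith)
      · exact zero_le
    -- (b)
    have hb := sub_one hΩ hc hf hk (2 * δ)
    -- (c)
    have hcc := one_le_zero hm hΩ hc hf hD (t := 2 * δ) (by positivity)
    -- (d)
    have hd : H Ω f (w0 (2 * δ)) ≤ ENNReal.ofReal (δ ^ (-p)) * H Ω f (wp p δ) := by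
      rw [← H_const_mul _ _ _ ENNReal.ofReal_ne_top]
      apply H_mono
      intro d _
      unfold wp w0
      split_ifs with h h'
      · rw [← ENNReal.ofReal_mul (by positivity), ← ENNReal.ofReal_one]
        apply ENNReal.ofReal_le_ofReal
        calc (1 : ℝ) = δ ^ (-p) * δ ^ p := by
              rw [← Real.rpow_add hδ, neg_add_cancel, Real.rpow_zero]
          _ ≤ _ := by
              apply mul_le_mul_of_nonneg_left _ (by positivity)
              exact Real.rpow_le_rpow hδ.le (by linarith) hp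
      · exact absurd (by linarith) h'
      · exact zero_le
      · exact zero_le
    have hkpow : (k : ℝ≥0∞) ^ m = ENNReal.ofReal ((k : ℝ) ^ m) := by
      rw [ENNReal.ofReal_pow hk0.le, ENNReal.ofReal_natCast]
    have hkn : (k : ℝ≥0∞) = ENNReal.ofReal (k : ℝ) := by rw [ENNReal.ofReal_natCast]
    have hfinal : (k : ℝ≥0∞) ^ m * H Ω f (wp p ε) ≤
        (k : ℝ≥0∞) ^ m * (ENNReal.ofReal (4 * 8 ^ m * (δ / ε) ^ ((m : ℝ) - p)) *
          H Ω f (wp p δ)) := by
      calc (k : ℝ≥0∞) ^ m * H Ω f (wp p ε)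
          ≤ (k : ℝ≥0∞) ^ m * (ENNReal.ofReal ((2 * k * δ) ^ (p - 1)) *
              H Ω f (w1 (k * (2 * δ)))) := mul_le_mul' le_rfl ha
        _ = ENNReal.ofReal ((2 * k * δ) ^ (p - 1)) *
              ((k : ℝ≥0∞) ^ m * H Ω f (w1 (k * (2 * δ)))) := by ring
        _ ≤ ENNReal.ofReal ((2 * k * δ) ^ (p - 1)) * (k * H Ω f (w1 (2 * δ))) :=
            mul_le_mul' le_rfl hb
        _ ≤ ENNReal.ofReal ((2 * k * δ) ^ (p - 1)) * (k * (ENNReal.ofReal (2 * (2 * δ)) *
              (ENNReal.ofReal (δ ^ (-p)) * H Ω f (wp p δ)))) := by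
            gcongr
            exact hcc.trans (mul_le_mul' le_rfl hd)
        _ = ENNReal.ofReal ((2 * k * δ) ^ (p - 1) * k * (4 * δ) * δ ^ (-p)) *
              H Ω f (wp p δ) := by
            rw [hkn, show 2 * (2 * δ) = 4 * δ by ring,
              ENNReal.ofReal_mul (p := (2 * k * δ) ^ (p - 1) * k * (4 * δ)) (by positivity),
              ENNReal.ofReal_mul (p := (2 * k * δ) ^ (p - 1) * k) (by positivity),
              ENNReal.ofReal_mul (p := (2 * k * δ) ^ (p - 1)) (by positivity)]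
            ring
        _ ≤ ENNReal.ofReal ((k : ℝ) ^ m * (4 * 8 ^ m * (δ / ε) ^ ((m : ℝ) - p))) *
              H Ω f (wp p δ) := by
            apply mul_le_mul' _ le_rfl
            apply ENNReal.ofReal_le_ofReal
            exact const_le hp1 hδ hε hk hkge hmp hp
        _ = _ := by
            rw [ENNReal.ofReal_mul (by positivity), hkpow, mul_assoc]
    refine (ENNReal.mul_le_mul_iff_right ?_ ?_).1 hfinal
    · exact pow_ne_zero _ (by exact_mod_cast hk.ne')
    · exact ENNReal.pow_ne_top (ENNReal.natCast_ne_top k)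

end Pool.Agent.Run7.h819.GapSub
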