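import Mathlib

/-!
# Truncated gap integrals: subdivision of a segment

For a convex open set `Ω` in dimension `m` and a measurable map `f`, write
`H φ = ∫_Ω ∫_Ω φ (d (f y) (f x)) / |y - x|^(2m) dy dx`.  Cutting the segment from `x` to `y` into `k`
equal pieces gives `k^m H φ ≤ k H ψ` whenever `φ (d) ≤ ∑ ψ (a i)` for all `d ≤ ∑ a i`.
-/

set_option autoImplicit false

namespace Pool.Agent.Run7.h819.GapSub

open MeasureTheory Set
open scoped ENNReal

variable {m : ℕ} {N : Type} [MetricSpace N]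

/-- the kernel -/
noncomputable def w (h : EuclideanSpace ℝ (Fin m)) : ℝ≥0∞ := ENNReal.ofReal ((‖h‖ ^ (2 * m))⁻¹)

/-- the double integral with weight `φ` -/
noncomputable def H (Ω : Set (EuclideanSpace ℝ (Fin m))) (f : EuclideanSpace ℝ (Fin m) → N)
    (φ : ℝ → ℝ≥0∞) : ℝ≥0∞ :=
  ∫⁻ x in Ω, ∫⁻ y in Ω, φ (dist (f y) (f x)) * w (y - x)

theorem H_mono (Ω : Set (EuclideanSpace ℝ (Fin m))) (f : EuclideanSpace ℝ (Fin m) → N)
    {φ ψ : ℝ → ℝ≥0∞} (h : ∀ d, 0 ≤ d → φ d ≤ ψ d) : H Ω f φ ≤ H Ω f ψ := by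
  unfold H
  apply lintegral_mono
  intro x
  apply lintegral_mono
  intro y
  exact mul_le_mul' (h _ dist_nonneg) le_rfl

theorem H_const_mul (Ω : Set (EuclideanSpace ℝ (Fin m))) (f : EuclideanSpace ℝ (Fin m) → N)
    (φ : ℝ → ℝ≥0∞) {c : ℝ≥0∞} (hc : c ≠ ∞) : H Ω f (fun d => c * φ d) = c * H Ω f φ := by
  unfold H
  rw [← lintegral_const_mul' c _ hc]
  apply lintegral_congr
  intro x
  rw [← lintegral_const_mul' c _ hc]
  apply lintegral_congr
  intro y
  rw [mul_assoc]

theorem measurable_w : Measurable (w (m := m)) := by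
  unfold w
  fun_prop

variable [MeasurableSpace N] [BorelSpace N] [SecondCountableTopology N]

/-- the integrand without the kernel -/
noncomputable def F (Ω : Set (EuclideanSpace ℝ (Fin m))) (f : EuclideanSpace ℝ (Fin m) → N)
    (φ : ℝ → ℝ≥0∞) (x y : EuclideanSpace ℝ (Fin m)) : ℝ≥0∞ :=
  Ω.indicator (fun _ => Ω.indicator (fun _ => φ (dist (f y) (f x))) y) x

theorem measurable_F {Ω : Set (EuclideanSpace ℝ (Fin m))} (hΩ : MeasurableSet Ω)
    {f : EuclideanSpace ℝ (Fin m) → N} (hf : Measurable f) {φ : ℝ → ℝ≥0∞} (hφ : Measurable φ) :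
    Measurable (fun q : EuclideanSpace ℝ (Fin m) × EuclideanSpace ℝ (Fin m) => F Ω f φ q.1 q.2) := by
  have h1 : (fun q : EuclideanSpace ℝ (Fin m) × EuclideanSpace ℝ (Fin m) => F Ω f φ q.1 q.2) =
      (Ω ×ˢ Ω).indicator (fun q => φ (dist (f q.2) (f q.1))) := by
    funext q
    unfold F
    by_cases hx : q.1 ∈ Ω <;> by_cases hy : q.2 ∈ Ω <;>
      simp [indicator, hx, hy]
  rw [h1]
  apply Measurable.indicator _ (hΩ.prod hΩ)
  exact hφ.comp ((hf.comp measurable_snd).dist (hf.comp measurable_fst))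

/-- the integral over the first variable, at the displacement `h` -/
noncomputable def A (Ω : Set (EuclideanSpace ℝ (Fin m))) (f : EuclideanSpace ℝ (Fin m) → N)
    (φ : ℝ → ℝ≥0∞) (h : EuclideanSpace ℝ (Fin m)) : ℝ≥0∞ := ∫⁻ x, F Ω f φ x (x + h)

theorem measurable_A {Ω : Set (EuclideanSpace ℝ (Fin m))} (hΩ : MeasurableSet Ω)
    {f : EuclideanSpace ℝ (Fin m) → N} (hf : Measurable f) {φ : ℝ → ℝ≥0∞} (hφ : Measurable φ) :
    Measurable (A Ω f φ) := by
  unfold A
  have h1 := measurable_F hΩ hf hφ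
  have h2 : Measurable (fun q : EuclideanSpace ℝ (Fin m) × EuclideanSpace ℝ (Fin m) =>
      F Ω f φ q.2 (q.2 + q.1)) :=
    h1.comp (measurable_snd.prodMk (measurable_snd.add measurable_fst))
  exact Measurable.lintegral_prod_right' h2

theorem H_eq {Ω : Set (EuclideanSpace ℝ (Fin m))} (hΩ : MeasurableSet Ω)
    {f : EuclideanSpace ℝ (Fin m) → N} (hf : Measurable f) {φ : ℝ → ℝ≥0∞} (hφ : Measurable φ) :
    H Ω f φ = ∫⁻ h, w h * A Ω f φ h := by
  have h1 := measurable_F hΩ hf hφ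
  have h0 : H Ω f φ = ∫⁻ x, ∫⁻ h, F Ω f φ x (x + h) * w h := by
    unfold H
    rw [← lintegral_indicator hΩ]
    apply lintegral_congr
    intro x
    have e1 : ∫⁻ h, F Ω f φ x (x + h) * w h = ∫⁻ y, F Ω f φ x y * w (y - x) := by
      rw [← lintegral_add_left_eq_self (fun y => F Ω f φ x y * w (y - x)) x]
      apply lintegral_congr
      intro h
      rw [add_sub_cancel_left]
    rw [e1]
    by_cases hx : x ∈ Ω
    · rw [indicator_of_mem hx, ← lintegral_indicator hΩ]
      apply lintegral_congr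
      intro y
      unfold F
      rw [indicator_of_mem hx]
      by_cases hy : y ∈ Ω
      · rw [indicator_of_mem hy, indicator_of_mem hy]
      · rw [indicator_of_notMem hy, indicator_of_notMem hy, zero_mul]
    · rw [indicator_of_notMem hx]
      unfold F
      simp [indicator_of_notMem hx]
  rw [h0, lintegral_lintegral_swap]
  · apply lintegral_congr
    intro h
    unfold A
    rw [lintegral_mul_const, mul_comm]
    exact h1.comp (measurable_id.prodMk (measurable_id.add_const h))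
  · apply Measurable.aemeasurable
    apply Measurable.mul
    · exact h1.comp (measurable_fst.prodMk (measurable_fst.add measurable_snd))
    · exact measurable_w.comp measurable_snd

/-- the chain of the points `x + (i/k) h` -/
theorem A_le {Ω : Set (EuclideanSpace ℝ (Fin m))} (hΩ : MeasurableSet Ω) (hc : Convex ℝ Ω)
    {f : EuclideanSpace ℝ (Fin m) → N} (hf : Measurable f) {φ ψ : ℝ → ℝ≥0∞} (hψ : Measurable ψ)
    {k : ℕ} (hk : 0 < k)
    (H : ∀ (a : ℕ → ℝ) (d : ℝ), (∀ i, 0 ≤ a i) → 0 ≤ d → d ≤ ∑ i ∈ Finset.range k, a i →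
      φ d ≤ ∑ i ∈ Finset.range k, ψ (a i)) (h : EuclideanSpace ℝ (Fin m)) :
    A Ω f φ h ≤ k * A Ω f ψ ((k : ℝ)⁻¹ • h) := by
  have hk0 : (0 : ℝ) < k := by exact_mod_cast hk
  set v : EuclideanSpace ℝ (Fin m) := (k : ℝ)⁻¹ • h with hv
  have hkv : (k : ℝ) • v = h := by
    rw [hv, smul_smul, mul_inv_cancel₀ hk0.ne', one_smul]
  have key : ∀ x, F Ω f φ x (x + h) ≤
      ∑ i ∈ Finset.range k, F Ω f ψ (x + (i : ℝ) • v) (x + (i : ℝ) • v + v) := by
    intro x
    by_cases hx : x ∈ Ω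
    · by_cases hy : x + h ∈ Ω
      · have hmem : ∀ i : ℕ, i ≤ k → x + (i : ℝ) • v ∈ Ω := by
          intro i hi
          have := hc.add_smul_mem hx hy (t := (i : ℝ) * (k : ℝ)⁻¹)
            ⟨by positivity, by
              rw [← div_eq_mul_inv, div_le_one hk0]
              exact_mod_cast hi⟩
          rw [mul_smul] at this
          exact this
        unfold F
        rw [indicator_of_mem hx, indicator_of_mem hy]
        have hsum : ∀ i ∈ Finset.range k,
            Ω.indicator (fun _ => Ω.indicator (fun _ => ψ (dist (f (x + (i : ℝ) • v + v))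
              (f (x + (i : ℝ) • v)))) (x + (i : ℝ) • v + v)) (x + (i : ℝ) • v) =
            ψ (dist (f (x + ((i + 1 : ℕ) : ℝ) • v)) (f (x + (i : ℝ) • v))) := by
          intro i hi
          have hi' := Finset.mem_range.1 hi
          have e : x + (i : ℝ) • v + v = x + ((i + 1 : ℕ) : ℝ) • v := by
            push_cast
            rw [add_smul, one_smul, add_assoc]
          rw [e, indicator_of_mem (hmem i hi'.le), indicator_of_mem (hmem (i + 1) hi')]
        rw [Finset.sum_congr rfl hsum]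
        apply H (fun i => dist (f (x + ((i + 1 : ℕ) : ℝ) • v)) (f (x + (i : ℝ) • v)))
        · intro i
          exact dist_nonneg
        · exact dist_nonneg
        · have := dist_le_range_sum_dist (fun i : ℕ => f (x + (i : ℝ) • v)) k
          simp only [Nat.cast_zero, zero_smul, add_zero, hkv] at this
          rw [dist_comm]
          refine this.trans (le_of_eq ?_)
          apply Finset.sum_congr rfl
          intro i _
          rw [dist_comm]
      · unfold F
        rw [indicator_of_mem hx, indicator_of_notMem hy]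
        exact zero_le
    · unfold F
      rw [indicator_of_notMem hx]
      exact zero_le
  have hm : Measurable (fun x => F Ω f ψ x (x + v)) :=
    (measurable_F hΩ hf hψ).comp (measurable_id.prodMk (measurable_id.add_const v))
  unfold A
  calc ∫⁻ x, F Ω f φ x (x + h)
      ≤ ∫⁻ x, ∑ i ∈ Finset.range k, F Ω f ψ (x + (i : ℝ) • v) (x + (i : ℝ) • v + v) :=
        lintegral_mono key
    _ = ∑ i ∈ Finset.range k, ∫⁻ x, F Ω f ψ (x + (i : ℝ) • v) (x + (i : ℝ) • v + v) := by
        apply lintegral_finsetSum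
        intro i _
        exact hm.comp (measurable_id.add_const ((i : ℝ) • v))
    _ = ∑ i ∈ Finset.range k, ∫⁻ x, F Ω f ψ x (x + v) := by
        apply Finset.sum_congr rfl
        intro i _
        exact lintegral_add_right_eq_self (fun x => F Ω f ψ x (x + v)) ((i : ℝ) • v)
    _ = k * ∫⁻ x, F Ω f ψ x (x + v) := by
        rw [Finset.sum_const, Finset.card_range, nsmul_eq_mul]

theorem w_smul {k : ℝ} (hk : 0 < k) (h : EuclideanSpace ℝ (Fin m)) :
    w (k • h) = ENNReal.ofReal ((k ^ (2 * m))⁻¹) * w h := by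
  unfold w
  rw [← ENNReal.ofReal_mul (by positivity), norm_smul, Real.norm_of_nonneg hk.le, mul_pow, mul_inv]

/-- **Subdivision.** -/
theorem subdivide {Ω : Set (EuclideanSpace ℝ (Fin m))} (hΩ : MeasurableSet Ω) (hc : Convex ℝ Ω)
    {f : EuclideanSpace ℝ (Fin m) → N} (hf : Measurable f) {φ ψ : ℝ → ℝ≥0∞} (hφ : Measurable φ)
    (hψ : Measurable ψ) {k : ℕ} (hk : 0 < k)
    (hH : ∀ (a : ℕ → ℝ) (d : ℝ), (∀ i, 0 ≤ a i) → 0 ≤ d → d ≤ ∑ i ∈ Finset.range k, a i →
      φ d ≤ ∑ i ∈ Finset.range k, ψ (a i)) :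
    (k : ℝ≥0∞) ^ m * H Ω f φ ≤ k * H Ω f ψ := by
  have hk0 : (0 : ℝ) < k := by exact_mod_cast hk
  have hA := measurable_A hΩ hf hψ
  set g : EuclideanSpace ℝ (Fin m) → ℝ≥0∞ := fun h => w ((k : ℝ) • h) * (k * A Ω f ψ h) with hg
  have hgm : Measurable g :=
    (measurable_w.comp (measurable_id.const_smul (k : ℝ))).mul (hA.const_mul _)
  have h1 : H Ω f φ ≤ ∫⁻ h, g ((k : ℝ)⁻¹ • h) := by
    rw [H_eq hΩ hf hφ]
    apply lintegral_mono
    intro h
    simp only [hg]
    rw [smul_smul, mul_inv_cancel₀ hk0.ne', one_smul]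
    exact mul_le_mul' le_rfl (A_le hΩ hc hf hψ hk hH h)
  have h2 : ∫⁻ h, g ((k : ℝ)⁻¹ • h) = ENNReal.ofReal ((k : ℝ) ^ m) * ∫⁻ h, g h := by
    have hmap := Measure.map_addHaar_smul (volume : Measure (EuclideanSpace ℝ (Fin m)))
      (inv_ne_zero hk0.ne')
    have h3 := lintegral_map (μ := (volume : Measure (EuclideanSpace ℝ (Fin m)))) hgm
      (measurable_const_smul ((k : ℝ)⁻¹))
    rw [← h3]
    erw [hmap]
    rw [lintegral_smul_measure, finrank_euclideanSpace, Fintype.card_fin]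
    congr 2
    rw [inv_pow, inv_inv, abs_of_pos (by positivity)]
  have h4 : ∫⁻ h, g h = ENNReal.ofReal (((k : ℝ) ^ (2 * m))⁻¹) * (k * H Ω f ψ) := by
    rw [H_eq hΩ hf hψ, ← lintegral_const_mul' _ _ (ENNReal.natCast_ne_top k),
      ← lintegral_const_mul' _ _ ENNReal.ofReal_ne_top]
    apply lintegral_congr
    intro h
    simp only [hg]
    rw [w_smul hk0]
    ring
  calc (k : ℝ≥0∞) ^ m * H Ω f φ
      ≤ (k : ℝ≥0∞) ^ m * (ENNReal.ofReal ((k : ℝ) ^ m) *
          (ENNReal.ofReal (((k : ℝ) ^ (2 * m))⁻¹) * (k * H Ω f ψ))) := by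
        rw [← h4, ← h2]
        exact mul_le_mul' le_rfl h1
    _ = k * H Ω f ψ := by
        have e : (k : ℝ≥0∞) ^ m = ENNReal.ofReal ((k : ℝ) ^ m) := by
          rw [ENNReal.ofReal_pow hk0.le, ENNReal.ofReal_natCast]
        rw [e, ← mul_assoc, ← mul_assoc, ← ENNReal.ofReal_mul (by positivity),
          ← ENNReal.ofReal_mul (by positivity)]
        have e2 : (k : ℝ) ^ m * (k : ℝ) ^ m * ((k : ℝ) ^ (2 * m))⁻¹ = 1 := by
          rw [← pow_add, ← two_mul, mul_inv_cancel₀ (by positivity)]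
        rw [e2, ENNReal.ofReal_one, one_mul]

end Pool.Agent.Run7.h819.GapSub
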